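import Pool.Agent.H17Ss.Sl

/-!
# Block decompositions
-/

set_option autoImplicit false

namespace Pool.Agent.H17Ss

open Module Finset

variable {K : Type*} [Field K] {W : Type*} [AddCommGroup W] [Module K W]
  {C : Type*} [Fintype C] [DecidableEq C]

/-- A complete family of orthogonal idempotents with weights, and an `sl(2)`-triple. -/
structure Blocks (E : C → End K W) (wt : C → ℤ) (N f H : End K W) : Prop where
  sum : ∑ c, E c = 1
  mul : ∀ c d, E c * E d = if c = d then E c else 0
  nf : N * f - f * N = H
  hn : H * N - N * H = 2 • N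
  hf : H * f - f * H = -(2 • f)
  n0 : ∀ c d, wt c ≠ wt d + 2 → E c * N * E d = 0
  f0 : ∀ c d, wt c ≠ wt d - 2 → E c * f * E d = 0
  h0 : ∀ c d, wt c ≠ wt d → E c * H * E d = 0
  nil : ∃ k : ℕ, ∀ c, (H - algebraMap K (End K W) ((wt c : ℤ) : K)) ^ k * E c = 0

/-- The projection to the part of weight `w`. -/
noncomputable def prj (E : C → End K W) (wt : C → ℤ) (w : ℤ) : End K W :=
  ∑ c with wt c = w, E c

variable {E : C → End K W} {wt : C → ℤ} {N f H T : End K W}

lemma comm_prj (sum : ∑ c, E c = 1) {X : End K W} {a : ℤ}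
    (h0 : ∀ c d, wt c ≠ wt d + a → E c * X * E d = 0) (w : ℤ) :
    X * prj E wt w = prj E wt (w + a) * X := by
  have h1 : X * prj E wt w = ∑ c, ∑ d with wt d = w, E c * X * E d := by
    rw [prj, Finset.mul_sum]
    have : ∀ d, X * E d = ∑ c, E c * X * E d := fun d => by
      rw [← Finset.sum_mul, ← Finset.sum_mul, sum, one_mul]
    rw [Finset.sum_congr rfl fun d _ => this d, Finset.sum_comm]
  have h2 : prj E wt (w + a) * X = ∑ c with wt c = w + a, ∑ d, E c * X * E d := by
    rw [prj, Finset.sum_mul]
    refine Finset.sum_congr rfl fun c _ => ?_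
    rw [← Finset.mul_sum, sum, mul_one]
  rw [h1, h2]
  have h3 : ∑ c, ∑ d with wt d = w, E c * X * E d =
      ∑ c, ∑ d, if wt c = w + a ∧ wt d = w then E c * X * E d else 0 := by
    refine Finset.sum_congr rfl fun c _ => ?_
    rw [Finset.sum_filter]
    refine Finset.sum_congr rfl fun d _ => ?_
    by_cases hd : wt d = w
    · by_cases hc : wt c = w + a
      · rw [if_pos hd, if_pos ⟨hc, hd⟩]
      · rw [if_pos hd, if_neg fun h => hc h.1, h0 c d (by rw [hd]; exact hc)]
    · rw [if_neg hd, if_neg fun h => hd h.2]
  have h4 : ∑ c with wt c = w + a, ∑ d, E c * X * E d =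
      ∑ c, ∑ d, if wt c = w + a ∧ wt d = w then E c * X * E d else 0 := by
    rw [Finset.sum_filter]
    refine Finset.sum_congr rfl fun c _ => ?_
    by_cases hc : wt c = w + a
    · rw [if_pos hc]
      refine Finset.sum_congr rfl fun d _ => ?_
      by_cases hd : wt d = w
      · rw [if_pos ⟨hc, hd⟩]
      · rw [if_neg fun h => hd h.2, h0 c d (by rw [hc]; omega)]
    · rw [if_neg hc, Finset.sum_eq_zero]
      intro d _
      rw [if_neg fun h => hc h.1]
  rw [h3, h4]

lemma prj_mul (mul : ∀ c d, E c * E d = if c = d then E c else 0) (w u : ℤ) :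
    prj E wt w * prj E wt u = if w = u then prj E wt w else 0 := by
  rw [prj, prj, Finset.sum_mul_sum]
  simp_rw [mul]
  have h1 : ∀ c, (∑ d with wt d = u, if c = d then E c else 0) =
      if wt c = u then E c else 0 := by
    intro c
    rw [Finset.sum_filter, Finset.sum_eq_single c]
    · simp
    · intro d _ hd
      rw [if_neg (Ne.symm hd)]
      simp
    · intro h; exact absurd (Finset.mem_univ c) h
  simp_rw [h1]
  split_ifs with h
  · subst h
    refine Finset.sum_congr rfl fun c hc => ?_
    rw [if_pos (Finset.mem_filter.1 hc).2]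
  · refine Finset.sum_eq_zero fun c hc => ?_
    rw [if_neg]
    rw [(Finset.mem_filter.1 hc).2]
    exact h

namespace Blocks

lemma grad [CharZero K] (h : Blocks E wt N f H) :
    Grad (prj E wt) (univ.image wt) N f H where
  sum := by
    have h1 : ∑ w ∈ univ.image wt, prj E wt w = ∑ c, E c := by
      rw [← Finset.sum_fiberwise_of_maps_to (g := wt) (t := univ.image wt)
        (fun c _ => Finset.mem_image_of_mem wt (Finset.mem_univ c))]
      rfl
    rw [h1, h.sum]
  idem := fun w => by rw [prj_mul h.mul, if_pos rfl]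
  orth := fun w u hwu => by rw [prj_mul h.mul, if_neg hwu]
  supp := fun w hw => by
    refine Finset.sum_eq_zero fun c hc => ?_
    exact absurd (Finset.mem_image.2 ⟨c, Finset.mem_univ c, (Finset.mem_filter.1 hc).2⟩) hw
  nf := h.nf
  hn := h.hn
  hf := h.hf
  nπ := comm_prj h.sum h.n0
  fπ := fun w => by
    have := comm_prj (E := E) (wt := wt) (X := f) (a := -2) h.sum
      (fun c d hcd => h.f0 c d (by omega)) w
    exact this
  hπ := fun w => by
    have := comm_prj (E := E) (wt := wt) (X := H) (a := 0) h.sum
      (fun c d hcd => h.h0 c d (by omega)) w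
    rwa [add_zero] at this
  nil := by
    obtain ⟨k, hk⟩ := h.nil
    refine ⟨k, fun w => ?_⟩
    rw [prj, Finset.mul_sum]
    refine Finset.sum_eq_zero fun c hc => ?_
    have := hk c
    rwa [(Finset.mem_filter.1 hc).2] at this

/-- **The kernel of an operator whose leading part is `N`.** -/
theorem finrank_ker_le [CharZero K] [FiniteDimensional K W] (h : Blocks E wt N f H)
    (hT : ∀ c d, wt c ≤ wt d + 2 → E c * T * E d = E c * N * E d) :
    finrank K (LinearMap.ker T) ≤
      ∑ c with wt c = 0 ∨ wt c = 1, finrank K (LinearMap.range (E c)) := by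
  have h1 := h.grad.finrank_ker_le (T := T) (by
    intro w u huw
    rw [prj, prj, Finset.sum_mul, Finset.sum_mul, Finset.sum_mul, Finset.sum_mul]
    refine Finset.sum_congr rfl fun c hc => ?_
    rw [Finset.mul_sum, Finset.mul_sum]
    refine Finset.sum_congr rfl fun d hd => ?_
    exact hT c d (by rw [(Finset.mem_filter.1 hc).2, (Finset.mem_filter.1 hd).2]; exact huw))
  have h2 : ∀ w, finrank K (Grad.part (prj E wt) w) ≤
      ∑ c with wt c = w, finrank K (LinearMap.range (E c)) := by
    intro w
    have h3 : Grad.part (prj E wt) w ≤ ⨆ c ∈ univ.filter (fun c => wt c = w),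
        LinearMap.range (E c) := by
      rintro _ ⟨x, rfl⟩
      rw [prj, LinearMap.sum_apply]
      refine Submodule.sum_mem _ fun c hc => ?_
      exact Submodule.mem_iSup_of_mem c (Submodule.mem_iSup_of_mem hc ⟨x, rfl⟩)
    refine (Submodule.finrank_mono h3).trans ?_
    generalize univ.filter (fun c => wt c = w) = s
    induction s using Finset.induction_on with
    | empty => simp
    | insert c s hc ih =>
      rw [Finset.sum_insert hc, Finset.iSup_insert]
      exact (Submodule.finrank_add_le_finrank_add_finrank _ _).trans (Nat.add_le_add_left ih _)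
  refine h1.trans ((Nat.add_le_add (h2 0) (h2 1)).trans (le_of_eq ?_))
  rw [← Finset.sum_union]
  · congr 1
    ext c
    simp
  · rw [Finset.disjoint_filter]
    intro c _ h3 h4
    omega

end Blocks

end Pool.Agent.H17Ss
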