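import Pool.Agent.H17Ss.Comb

/-!
# Pairs of words: the count
-/

set_option autoImplicit false

namespace Pool.Agent.H17Ss

open Finset

variable {ι K : Type*} [Fintype ι] [DecidableEq ι] [CommMonoid K]

/-- the numbers of the letters of a word -/
def cnt {n : ℕ} (a : Fin n → ι) : ι → Fin (n + 1) := fun l =>
  ⟨(({i | a i = l} : Finset (Fin n)).card), by
    have := Finset.card_le_univ ({i | a i = l} : Finset (Fin n))
    rw [Fintype.card_fin] at this
    omega⟩

lemma prod_eq_of_cnt {n : ℕ} {a b : Fin n → ι} (h : cnt a = cnt b) (s : ι → K) :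
    ∏ i, s (a i) = ∏ i, s (b i) := by
  have key : ∀ a : Fin n → ι, ∏ i, s (a i) = ∏ l, s l ^ (cnt a l : ℕ) := by
    intro a
    rw [← Finset.prod_fiberwise (s := univ) (g := a)]
    refine Finset.prod_congr rfl fun l _ => ?_
    rw [Finset.prod_congr rfl (g := fun _ => s l), Finset.prod_const]
    · rfl
    · intro i hi
      rw [(Finset.mem_filter.1 hi).2]
  rw [key, key, h]

/-- the pairs of words with the same product -/
def Eqv {n : ℕ} (s : ι → K) (x : Fin n ⊕ Fin n → ι) : Prop :=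
  ∏ i, s (x (Sum.inl i)) = ∏ i, s (x (Sum.inr i))

open Classical in
lemma growth {n : ℕ} (s : ι → K) :
    (Fintype.card ι : ℝ) ^ (2 * n) ≤ ((n : ℝ) + 1) ^ Fintype.card ι *
      ((({x | Eqv s x} : Finset (Fin n ⊕ Fin n → ι)).card : ℕ) : ℝ) := by
  set B : Finset ((Fin n → ι) × (Fin n → ι)) := {c | cnt c.1 = cnt c.2} with hB
  have h1 : B.card ≤ (({x | Eqv s x} : Finset (Fin n ⊕ Fin n → ι)).card) := by
    refine Finset.card_le_card_of_injOn (fun c => Sum.elim c.1 c.2) ?_ ?_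
    · intro c hc
      rw [Finset.mem_coe, hB, Finset.mem_filter] at hc
      rw [Finset.mem_coe, Finset.mem_filter]
      refine ⟨Finset.mem_univ _, ?_⟩
      unfold Eqv
      simp only [Sum.elim_inl, Sum.elim_inr]
      exact prod_eq_of_cnt hc.2 s
    · intro c _ d _ h
      refine Prod.ext ?_ ?_
      · funext i
        exact congrFun h (Sum.inl i)
      · funext i
        exact congrFun h (Sum.inr i)
  have h2 : B.card = ∑ v : ι → Fin (n + 1), (({a | cnt a = v} : Finset (Fin n → ι)).card) ^ 2 := by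
    rw [Finset.card_eq_sum_card_fiberwise (f := fun c : (Fin n → ι) × (Fin n → ι) => cnt c.1)
      (t := univ) (fun _ _ => Finset.mem_coe.2 (Finset.mem_univ _))]
    refine Finset.sum_congr rfl fun v _ => ?_
    rw [sq, ← Finset.card_product]
    congr 1
    ext c
    simp only [hB, Finset.mem_filter, Finset.mem_univ, true_and, Finset.mem_product]
    constructor
    · rintro ⟨h3, h4⟩
      exact ⟨h4, h3 ▸ h4⟩
    · rintro ⟨h3, h4⟩
      exact ⟨h3.trans h4.symm, h3⟩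
  have h3 : (∑ v : ι → Fin (n + 1), (({a | cnt a = v} : Finset (Fin n → ι)).card : ℝ)) ^ 2 ≤
      ((univ : Finset (ι → Fin (n + 1))).card : ℝ) *
        ∑ v : ι → Fin (n + 1), (({a | cnt a = v} : Finset (Fin n → ι)).card : ℝ) ^ 2 :=
    sq_sum_le_card_mul_sum_sq
  have h4 : ∑ v : ι → Fin (n + 1), (({a | cnt a = v} : Finset (Fin n → ι)).card) =
      Fintype.card ι ^ n := by
    rw [← Finset.card_eq_sum_card_fiberwise (s := univ) (f := fun a : Fin n → ι => cnt a)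
      (t := univ) (fun _ _ => Finset.mem_coe.2 (Finset.mem_univ _))]
    simp
  have h5 : ∑ v : ι → Fin (n + 1), (({a | cnt a = v} : Finset (Fin n → ι)).card : ℝ) =
      (Fintype.card ι : ℝ) ^ n := by exact_mod_cast h4
  have h6 : ∑ v : ι → Fin (n + 1), (({a | cnt a = v} : Finset (Fin n → ι)).card : ℝ) ^ 2 =
      (B.card : ℝ) := by rw [h2]; push_cast; rfl
  have h7 : ((univ : Finset (ι → Fin (n + 1))).card : ℝ) = ((n : ℝ) + 1) ^ Fintype.card ι := by
    rw [Finset.card_univ, Fintype.card_fun, Fintype.card_fin]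
    push_cast
    rfl
  rw [h5, h6, h7, ← pow_mul, mul_comm n 2] at h3
  refine h3.trans ?_
  gcongr

open Classical in
/-- **The count.** -/
theorem count {n : ℕ} (hn : 1 ≤ n) (s : ι → K) (w : ι → ℤ) {p q : ι} (hpq : p ≠ q)
    (hs : s p = s q) (hw : w p = w q + 2) :
    ((({x | Eqv s x ∧ (wt (Sum.elim (fun _ => w) fun _ => -w) x = 0 ∨
      wt (Sum.elim (fun _ => w) fun _ => -w) x = 1)} : Finset (Fin n ⊕ Fin n → ι)).card : ℕ) : ℝ) ≤
      (√((Fintype.card ι : ℝ) / (2 * n)) + ((n : ℝ) + 1) ^ Fintype.card ι *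
        (1 - 1 / (Fintype.card ι : ℝ) ^ 2) ^ (2 * n)) *
      ((({x | Eqv s x} : Finset (Fin n ⊕ Fin n → ι)).card : ℕ) : ℝ) := by
  set ω : Fin n ⊕ Fin n → ι → ℤ := Sum.elim (fun _ => w) fun _ => -w with hωdef
  set D := Fintype.card ι with hD
  have hD2 : 2 ≤ D := by
    have : 1 < D := Fintype.one_lt_card_iff.2 ⟨p, q, hpq⟩
    exact this
  have hω : ∀ i, ω i p = ω i q + 2 ∨ ω i q = ω i p + 2 := by
    rintro (i | i)
    · left; simpa [hωdef] using hw
    · right; simp only [hωdef, Sum.elim_inr, Pi.neg_apply]; omega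
  have hQ : ∀ x y : Fin n ⊕ Fin n → ι, mu p q x = mu p q y → Eqv s x → Eqv s y := by
    intro x y hxy hx
    have h1 : ∀ i, s (x i) = s (y i) := by
      intro i
      have h2 : ∀ z : Fin n ⊕ Fin n → ι, s (z i) = s (mu p q z i) := by
        intro z
        unfold mu
        split_ifs with h3
        · rw [h3, hs]
        · rfl
      rw [h2 x, h2 y, hxy]
    unfold Eqv at hx ⊢
    simp only [← h1]
    exact hx
  set θ : ℕ := 2 * n / D with hθ
  have hθ1 : D * θ ≤ 2 * n := Nat.mul_div_le _ _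
  have hθ2 : 2 * n < D * (θ + 1) := by
    have := Nat.lt_div_mul_add (a := 2 * n) (b := D) (by omega)
    rw [← hθ] at this
    nlinarith
  have hmain := main_words (I := Fin n ⊕ Fin n) hpq hω (Eqv s) hQ θ
  have hfew := few_words (I := Fin n ⊕ Fin n) hpq θ
  have hgr := growth (n := n) s
  set P : ℝ := ((({x | Eqv s x} : Finset (Fin n ⊕ Fin n → ι)).card : ℕ) : ℝ) with hP
  have hP0 : 0 ≤ P := by positivity
  have hcard : Fintype.card (Fin n ⊕ Fin n) = 2 * n := by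
    rw [Fintype.card_sum, Fintype.card_fin]; ring
  rw [hcard] at hfew
  have hsplit : (({x | Eqv s x ∧ (wt ω x = 0 ∨ wt ω x = 1)} :
      Finset (Fin n ⊕ Fin n → ι)).card) ≤
      (({x | Eqv s x ∧ (wt ω x = 0 ∨ wt ω x = 1) ∧ θ < (jset p q x).card} :
        Finset (Fin n ⊕ Fin n → ι)).card) +
      (({x | (jset p q x).card ≤ θ} : Finset (Fin n ⊕ Fin n → ι)).card) := by
    refine le_trans (Finset.card_le_card ?_) (Finset.card_union_le _ _)
    intro x hx
    rw [Finset.mem_filter] at hx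
    rw [Finset.mem_union, Finset.mem_filter, Finset.mem_filter]
    rcases le_or_gt (jset p q x).card θ with h | h
    · exact Or.inr ⟨Finset.mem_univ _, h⟩
    · exact Or.inl ⟨Finset.mem_univ _, hx.2.1, hx.2.2, h⟩
  have hDr : (2 : ℝ) ≤ D := by exact_mod_cast hD2
  have hD0 : (0 : ℝ) < D := by linarith
  have hnr : (1 : ℝ) ≤ n := by exact_mod_cast hn
  -- the words with few letters
  have h1 : (2 : ℝ) ^ θ ≤ (1 + 1 / (D : ℝ)) ^ (2 * n) := by
    have h2 : (2 : ℝ) ≤ (1 + 1 / (D : ℝ)) ^ D := by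
      have := one_add_mul_le_pow (a := 1 / (D : ℝ)) (by
        have : 0 ≤ 1 / (D : ℝ) := by positivity
        linarith) D
      rw [mul_one_div_cancel hD0.ne'] at this
      linarith
    calc (2 : ℝ) ^ θ ≤ ((1 + 1 / (D : ℝ)) ^ D) ^ θ := pow_le_pow_left₀ (by norm_num) h2 _
      _ = (1 + 1 / (D : ℝ)) ^ (D * θ) := (pow_mul _ _ _).symm
      _ ≤ (1 + 1 / (D : ℝ)) ^ (2 * n) := by
          refine pow_le_pow_right₀ ?_ hθ1
          have : 0 ≤ 1 / (D : ℝ) := by positivity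
          linarith
  have h3 : (2 : ℝ) ^ θ * ((D : ℝ) - 1) ^ (2 * n) ≤
      ((n : ℝ) + 1) ^ D * (1 - 1 / (D : ℝ) ^ 2) ^ (2 * n) * P := by
    have hD1 : (0 : ℝ) ≤ ((D : ℝ) - 1) ^ (2 * n) := by
      apply pow_nonneg; linarith
    calc (2 : ℝ) ^ θ * ((D : ℝ) - 1) ^ (2 * n)
        ≤ (1 + 1 / (D : ℝ)) ^ (2 * n) * ((D : ℝ) - 1) ^ (2 * n) :=
          mul_le_mul_of_nonneg_right h1 hD1
      _ = (D : ℝ) ^ (2 * n) * (1 - 1 / (D : ℝ) ^ 2) ^ (2 * n) := by
          rw [← mul_pow, ← mul_pow]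
          congr 1
          field_simp
          ring
      _ ≤ (((n : ℝ) + 1) ^ D * P) * (1 - 1 / (D : ℝ) ^ 2) ^ (2 * n) := by
          refine mul_le_mul_of_nonneg_right hgr (pow_nonneg ?_ _)
          rw [sub_nonneg, div_le_one (by positivity)]
          nlinarith
      _ = _ := by ring
  -- the words with many letters
  have h4 : 1 / √((θ : ℝ) + 2) ≤ √((D : ℝ) / (2 * n)) := by
    rw [one_div, ← Real.sqrt_inv]
    apply Real.sqrt_le_sqrt
    rw [inv_le_comm₀ (by positivity) (by positivity), inv_div, div_le_iff₀ hD0]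
    have : ((2 * n : ℕ) : ℝ) < ((D * (θ + 1) : ℕ) : ℝ) := by exact_mod_cast hθ2
    push_cast at this
    nlinarith
  calc ((({x | Eqv s x ∧ (wt ω x = 0 ∨ wt ω x = 1)} :
      Finset (Fin n ⊕ Fin n → ι)).card : ℕ) : ℝ)
      ≤ ((({x | Eqv s x ∧ (wt ω x = 0 ∨ wt ω x = 1) ∧ θ < (jset p q x).card} :
        Finset (Fin n ⊕ Fin n → ι)).card : ℕ) : ℝ) +
        ((({x | (jset p q x).card ≤ θ} : Finset (Fin n ⊕ Fin n → ι)).card : ℕ) : ℝ) := by
          exact_mod_cast hsplit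
    _ ≤ 1 / √((θ : ℝ) + 2) * P + 2 ^ θ * ((D : ℝ) - 1) ^ (2 * n) := by
          refine add_le_add ?_ hfew
          exact hmain
    _ ≤ √((D : ℝ) / (2 * n)) * P + ((n : ℝ) + 1) ^ D * (1 - 1 / (D : ℝ) ^ 2) ^ (2 * n) * P :=
          add_le_add (mul_le_mul_of_nonneg_right h4 hP0) h3
    _ = _ := by ring

/-- the second term is smaller than the first one for large `n` -/
lemma second_le {D n : ℕ} (hD : 2 ≤ D) (hn : 4 * D ^ 4 ≤ n) :
    ((n : ℝ) + 1) ^ D * (1 - 1 / (D : ℝ) ^ 2) ^ (2 * n) ≤ √((D : ℝ) / (2 * n)) := by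
  have hDr : (2 : ℝ) ≤ D := by exact_mod_cast hD
  have hD0 : (0 : ℝ) < D := by linarith
  have hn1 : (4 * (D : ℝ) ^ 4) ≤ n := by exact_mod_cast hn
  have hD4 : (0 : ℝ) < (D : ℝ) ^ 4 := by positivity
  have hn0 : (0 : ℝ) < n := by linarith
  set τ : ℝ := (n : ℝ) / (4 * (D : ℝ) ^ 4) with hτ
  have hτ1 : 1 ≤ τ := by rw [hτ, le_div_iff₀ (by positivity)]; linarith
  have hnτ : (n : ℝ) = 4 * (D : ℝ) ^ 4 * τ := by rw [hτ]; field_simp
  -- `n + 1 ≤ exp (4 D + τ)`
  have h1 : (n : ℝ) + 1 ≤ Real.exp (4 * D + τ) := by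
    have h2 : (D : ℝ) ≤ Real.exp (D - 1) := by
      have := Real.add_one_le_exp ((D : ℝ) - 1)
      linarith
    have h3 : (D : ℝ) ^ 4 ≤ Real.exp (4 * (D - 1)) := by
      calc (D : ℝ) ^ 4 ≤ (Real.exp (D - 1)) ^ 4 := pow_le_pow_left₀ hD0.le h2 4
        _ = Real.exp (4 * (D - 1)) := by rw [← Real.exp_nat_mul]; norm_num
    have h4 : (5 : ℝ) ≤ Real.exp 4 := by
      have := Real.add_one_le_exp (4 : ℝ)
      linarith
    have h5 : 1 + τ ≤ Real.exp τ := by
      have := Real.add_one_le_exp τ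
      linarith
    have h6 : Real.exp (4 * D + τ) = Real.exp 4 * Real.exp (4 * (D - 1)) * Real.exp τ := by
      rw [← Real.exp_add, ← Real.exp_add]
      congr 1
      ring
    rw [h6]
    calc (n : ℝ) + 1 ≤ 5 * (D : ℝ) ^ 4 * (1 + τ) := by
          rw [hnτ]
          have h7 : (1 : ℝ) ≤ (D : ℝ) ^ 4 := one_le_pow₀ (by linarith)
          nlinarith [mul_nonneg hD4.le (by linarith : (0 : ℝ) ≤ τ)]
      _ ≤ Real.exp 4 * Real.exp (4 * (D - 1)) * Real.exp τ := by gcongr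
  -- the power is small
  have h2 : (1 - 1 / (D : ℝ) ^ 2) ^ (2 * n) ≤ Real.exp (-(8 * (D : ℝ) ^ 2 * τ)) := by
    have h3 : 0 ≤ 1 - 1 / (D : ℝ) ^ 2 := by
      rw [sub_nonneg, div_le_one (by positivity)]; nlinarith
    have h4 : 1 - 1 / (D : ℝ) ^ 2 ≤ Real.exp (-(1 / (D : ℝ) ^ 2)) := by
      have := Real.add_one_le_exp (-(1 / (D : ℝ) ^ 2))
      linarith
    calc (1 - 1 / (D : ℝ) ^ 2) ^ (2 * n) ≤ (Real.exp (-(1 / (D : ℝ) ^ 2))) ^ (2 * n) :=
          pow_le_pow_left₀ h3 h4 _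
      _ = Real.exp (-(8 * (D : ℝ) ^ 2 * τ)) := by
          rw [← Real.exp_nat_mul]
          congr 1
          push_cast
          rw [hnτ]
          field_simp
          ring
  -- the square root
  have h3 : Real.exp (-(4 * D + τ) / 2) ≤ √((D : ℝ) / (2 * n)) := by
    apply Real.le_sqrt_of_sq_le
    rw [← Real.exp_nat_mul]
    have h4 : ((2 : ℕ) : ℝ) * (-(4 * D + τ) / 2) = -(4 * D + τ) := by push_cast; ring
    rw [h4, Real.exp_neg, inv_le_comm₀ (Real.exp_pos _) (by positivity), inv_div]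
    refine le_trans ?_ h1
    rw [div_le_iff₀ hD0]
    nlinarith
  refine le_trans ?_ h3
  calc ((n : ℝ) + 1) ^ D * (1 - 1 / (D : ℝ) ^ 2) ^ (2 * n)
      ≤ (Real.exp (4 * D + τ)) ^ D * Real.exp (-(8 * (D : ℝ) ^ 2 * τ)) := by
        refine mul_le_mul (pow_le_pow_left₀ (by positivity) h1 _) h2 ?_ (by positivity)
        apply pow_nonneg
        rw [sub_nonneg, div_le_one (by positivity)]; nlinarith
    _ = Real.exp (D * (4 * D + τ) + -(8 * (D : ℝ) ^ 2 * τ)) := by
        rw [← Real.exp_nat_mul, ← Real.exp_add]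
    _ ≤ Real.exp (-(4 * D + τ) / 2) := by
        apply Real.exp_le_exp.2
        nlinarith [mul_nonneg (mul_nonneg hD0.le hD0.le) (by linarith : (0 : ℝ) ≤ τ - 1),
          mul_nonneg hD0.le (by linarith : (0 : ℝ) ≤ τ - 1),
          mul_nonneg (by linarith : (0 : ℝ) ≤ (D : ℝ) - 2) (by linarith : (0 : ℝ) ≤ τ - 1),
          mul_nonneg (by linarith : (0 : ℝ) ≤ (D : ℝ) - 2) hD0.le,
          mul_nonneg (mul_nonneg (by linarith : (0 : ℝ) ≤ (D : ℝ) - 2) hD0.le)
            (by linarith : (0 : ℝ) ≤ τ - 1)]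

end Pool.Agent.H17Ss
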