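import Mathlib

/-!
# Words with two letters which can be exchanged
-/

set_option autoImplicit false

namespace Pool.Agent.H17Ss

open Finset

/-! ### The middle binomial coefficient -/

lemma centralBinom_sq_le (m : ℕ) : (Nat.centralBinom m) ^ 2 * (2 * m + 1) ≤ 16 ^ m := by
  induction m with
  | zero => simp
  | succ m ih =>
    have h1 := Nat.succ_mul_centralBinom_succ m
    have h2 : (m + 1) ^ 2 * ((Nat.centralBinom (m + 1)) ^ 2 * (2 * (m + 1) + 1)) ≤
        (m + 1) ^ 2 * 16 ^ (m + 1) := by
      calc (m + 1) ^ 2 * ((Nat.centralBinom (m + 1)) ^ 2 * (2 * (m + 1) + 1))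
          = ((m + 1) * Nat.centralBinom (m + 1)) ^ 2 * (2 * m + 3) := by ring
        _ = (2 * (2 * m + 1) * Nat.centralBinom m) ^ 2 * (2 * m + 3) := by rw [h1]
        _ = (Nat.centralBinom m ^ 2 * (2 * m + 1)) * (4 * ((2 * m + 1) * (2 * m + 3))) := by ring
        _ ≤ 16 ^ m * (4 * ((2 * m + 1) * (2 * m + 3))) := Nat.mul_le_mul_right _ ih
        _ ≤ 16 ^ m * (16 * (m + 1) ^ 2) := by
            apply Nat.mul_le_mul_left
            nlinarith
        _ = (m + 1) ^ 2 * 16 ^ (m + 1) := by rw [pow_succ 16]; ring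
    exact Nat.le_of_mul_le_mul_left h2 (by positivity)

lemma choose_half_sq_le (j : ℕ) : (j.choose (j / 2)) ^ 2 * (j + 1) ≤ 4 ^ j := by
  obtain ⟨m, hm | hm⟩ := Nat.even_or_odd' j
  · subst hm
    rw [Nat.mul_div_cancel_left m two_pos, ← Nat.centralBinom_eq_two_mul_choose]
    have := centralBinom_sq_le m
    rwa [show (16 : ℕ) ^ m = 4 ^ (2 * m) by rw [pow_mul]; norm_num] at this
  · subst hm
    have h1 : (2 * m + 1) / 2 = m := by omega
    rw [h1]
    have h2 := centralBinom_sq_le (m + 1)
    have h3 : Nat.centralBinom (m + 1) = 2 * (2 * m + 1).choose m := by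
      rw [Nat.centralBinom_eq_two_mul_choose, show 2 * (m + 1) = (2 * m + 1) + 1 by ring,
        Nat.choose_succ_succ', Nat.choose_symm_half m]
      ring
    rw [h3] at h2
    have h4 : (16 : ℕ) ^ (m + 1) = 4 * 4 ^ (2 * m + 1) := by
      rw [show (16 : ℕ) = 4 ^ 2 by norm_num, ← pow_mul, ← pow_succ']
      congr 1
    rw [h4] at h2
    nlinarith [h2, Nat.zero_le ((2 * m + 1).choose m)]

lemma choose_half_le (j : ℕ) : ((j.choose (j / 2) : ℕ) : ℝ) ≤ 2 ^ j / √(j + 1) := by
  have h1 : ((j.choose (j / 2) : ℕ) : ℝ) ^ 2 * (j + 1) ≤ 4 ^ j := by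
    exact_mod_cast choose_half_sq_le j
  have h2 : (0 : ℝ) < √(j + 1) := Real.sqrt_pos.2 (by positivity)
  rw [le_div_iff₀ h2]
  refine (pow_le_pow_iff_left₀ (by positivity) (by positivity) two_ne_zero).1 ?_
  rw [mul_pow, Real.sq_sqrt (by positivity), ← pow_mul, mul_comm j 2, pow_mul]
  norm_num
  exact h1

/-! ### Exchanging two letters -/

section words

variable {I ι : Type*} [Fintype I] [DecidableEq I] [Fintype ι] [DecidableEq ι]
  (p q : ι) (ω : I → ι → ℤ)

/-- the positions with one of the two letters -/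
def jset (x : I → ι) : Finset I := {i | x i = p ∨ x i = q}

/-- replace `q` by `p` -/
def mu (x : I → ι) : I → ι := fun i => if x i = q then p else x i

/-- the weight of a word -/
def wt (x : I → ι) : ℤ := ∑ i, ω i (x i)

variable {p q ω}

omit [DecidableEq I] [Fintype ι] in
lemma mem_jset {x : I → ι} {i : I} : i ∈ jset p q x ↔ x i = p ∨ x i = q := by
  simp [jset]

omit [DecidableEq I] [Fintype ι] in
lemma jset_eq {x : I → ι} : jset p q x = ({i | mu p q x i = p} : Finset I) := by
  ext i
  rw [mem_jset, Finset.mem_filter]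
  unfold mu
  by_cases h : x i = q
  · simp [h]
  · simp [h]

omit [DecidableEq I] [Fintype ι] in
lemma jset_congr {x y : I → ι} (h : mu p q x = mu p q y) : jset p q x = jset p q y := by
  rw [jset_eq, jset_eq, h]

omit [Fintype I] [DecidableEq I] [Fintype ι] in
lemma eq_of_mu {x y : I → ι} (h : mu p q x = mu p q y) {i : I} (hi : ¬ (x i = p ∨ x i = q)) :
    y i = x i := by
  have h1 := congrFun h i
  unfold mu at h1
  push Not at hi
  rw [if_neg hi.2] at h1
  split_ifs at h1 with h2
  · exact absurd h1 hi.1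
  · exact h1.symm

omit [Fintype I] [DecidableEq I] [Fintype ι] in
lemma mem_of_mu {x y : I → ι} (h : mu p q x = mu p q y) {i : I} (hi : x i = p ∨ x i = q) :
    y i = p ∨ y i = q := by
  by_contra hcon
  have := eq_of_mu h.symm hcon
  rw [this] at hi
  exact hcon hi

/-- the letter with the larger weight -/
def hi (p q : ι) (ω : I → ι → ℤ) (i : I) : ι := if ω i q < ω i p then p else q

/-- the letter with the smaller weight -/
def lo (p q : ι) (ω : I → ι → ℤ) (i : I) : ι := if ω i q < ω i p then q else p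

/-- the positions with the letter of larger weight -/
def hset (p q : ι) (ω : I → ι → ℤ) (x : I → ι) : Finset I :=
  {i ∈ jset p q x | x i = hi p q ω i}

omit [Fintype ι] in
lemma wt_eq (hω : ∀ i, ω i p = ω i q + 2 ∨ ω i q = ω i p + 2) (x : I → ι) :
    wt ω x = ∑ i, ω i (if i ∈ jset p q x then lo p q ω i else x i) +
      2 * ((hset p q ω x).card : ℤ) := by
  have h1 : ((hset p q ω x).card : ℤ) = ∑ i, if i ∈ hset p q ω x then 1 else 0 := by
    rw [Finset.sum_ite_mem]
    simp
  rw [h1, Finset.mul_sum, ← Finset.sum_add_distrib, wt]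
  refine Finset.sum_congr rfl fun i _ => ?_
  by_cases hj : i ∈ jset p q x
  · rw [if_pos hj]
    have hx := mem_jset.1 hj
    by_cases hh : x i = hi p q ω i
    · have h2 : i ∈ hset p q ω x := Finset.mem_filter.2 ⟨hj, hh⟩
      rw [if_pos h2, hh]
      unfold hi lo
      rcases hω i with h3 | h3
      · rw [if_pos (by omega), if_pos (by omega)]; omega
      · rw [if_neg (by omega), if_neg (by omega)]; omega
    · have h2 : i ∉ hset p q ω x := fun h => hh (Finset.mem_filter.1 h).2
      rw [if_neg h2, mul_zero, add_zero]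
      congr 1
      unfold hi at hh
      unfold lo
      split_ifs at hh ⊢ with h4
      · exact hx.resolve_left hh
      · exact hx.resolve_right hh
  · have h2 : i ∉ hset p q ω x := fun h => hj (Finset.mem_filter.1 h).1
    rw [if_neg hj, if_neg h2, mul_zero, add_zero]

omit [DecidableEq I] [Fintype ι] in
lemma hset_inj {x y : I → ι} (h : mu p q x = mu p q y)
    (hxy : hset p q ω x = hset p q ω y) : x = y := by
  funext i
  by_cases hj : x i = p ∨ x i = q
  · have hy := mem_of_mu h hj
    have h1 : i ∈ hset p q ω x ↔ i ∈ hset p q ω y := by rw [hxy]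
    rw [hset, hset, Finset.mem_filter, Finset.mem_filter, mem_jset, mem_jset] at h1
    simp only [hj, hy, true_and] at h1
    unfold hi at h1
    split_ifs at h1 with h2
    · by_cases h3 : x i = p
      · rw [h3, h1.1 h3]
      · have h4 : ¬ y i = p := fun h => h3 (h1.2 h)
        rw [hj.resolve_left h3, hy.resolve_left h4]
    · by_cases h3 : x i = q
      · rw [h3, h1.1 h3]
      · have h4 : ¬ y i = q := fun h => h3 (h1.2 h)
        rw [hj.resolve_right h3, hy.resolve_right h4]
  · exact (eq_of_mu h hj).symm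

/-- few words of a fibre have weight zero or one -/
lemma card_fibre_le (hω : ∀ i, ω i p = ω i q + 2 ∨ ω i q = ω i p + 2) (x₀ : I → ι) :
    (({x | mu p q x = mu p q x₀ ∧ (wt ω x = 0 ∨ wt ω x = 1)} : Finset (I → ι)).card) ≤
      (jset p q x₀).card.choose ((jset p q x₀).card / 2) := by
  rcases Finset.eq_empty_or_nonempty
    ({x | mu p q x = mu p q x₀ ∧ (wt ω x = 0 ∨ wt ω x = 1)} : Finset (I → ι)) with h | ⟨x₁, hx₁⟩
  · rw [h]; simp
  · rw [Finset.mem_filter] at hx₁
    obtain ⟨-, hx₁, hw₁⟩ := hx₁
    refine le_trans ?_ (Nat.choose_le_middle (hset p q ω x₁).card _)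
    rw [← Finset.card_powersetCard]
    refine Finset.card_le_card_of_injOn (hset p q ω) ?_ ?_
    · intro x hx
      rw [Finset.mem_coe, Finset.mem_filter] at hx
      obtain ⟨-, hx, hw⟩ := hx
      rw [Finset.mem_coe, Finset.mem_powersetCard]
      refine ⟨?_, ?_⟩
      · rw [← jset_congr hx]
        exact Finset.filter_subset _ _
      · have h1 := wt_eq hω x
        have h2 := wt_eq hω x₁
        have hxx : mu p q x = mu p q x₁ := hx.trans hx₁.symm
        have h3 : ∑ i, ω i (if i ∈ jset p q x then lo p q ω i else x i) =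
            ∑ i, ω i (if i ∈ jset p q x₁ then lo p q ω i else x₁ i) := by
          refine Finset.sum_congr rfl fun i _ => ?_
          rw [jset_congr hxx]
          split_ifs with h4
          · rfl
          · rw [mem_jset] at h4
            rw [eq_of_mu hxx.symm h4]
        rw [h3] at h1
        omega
    · intro x hx y hy hxy
      rw [Finset.mem_coe, Finset.mem_filter] at hx hy
      exact hset_inj (hx.2.1.trans hy.2.1.symm) hxy

/-- the number of the words in a fibre -/
lemma le_card_fibre (hpq : p ≠ q) (x₀ : I → ι) :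
    2 ^ (jset p q x₀).card ≤ (({x | mu p q x = mu p q x₀} : Finset (I → ι)).card) := by
  rw [← Finset.card_powerset]
  refine Finset.card_le_card_of_injOn
    (fun B => fun i => if i ∈ jset p q x₀ then (if i ∈ B then p else q) else x₀ i) ?_ ?_
  · intro B _
    rw [Finset.mem_coe, Finset.mem_filter]
    refine ⟨Finset.mem_univ _, ?_⟩
    funext i
    unfold mu
    by_cases hj : i ∈ jset p q x₀
    · have h1 : (if x₀ i = q then p else x₀ i) = p := by
        rcases mem_jset.1 hj with h2 | h2
        · rw [if_neg (by rw [h2]; exact hpq), h2]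
        · rw [if_pos h2]
      rw [h1]
      simp only [hj, if_true]
      by_cases hB : i ∈ B
      · simp [hB, hpq]
      · simp [hB]
    · simp [hj]
  · intro B hB B' hB' h
    rw [Finset.mem_coe, Finset.mem_powerset] at hB hB'
    ext i
    have h1 := congrFun h i
    simp only at h1
    constructor
    · intro hi
      rw [if_pos (hB hi), if_pos hi, if_pos (hB hi)] at h1
      by_contra hcon
      rw [if_neg hcon] at h1
      exact hpq h1
    · intro hi
      rw [if_pos (hB' hi), if_pos hi, if_pos (hB' hi)] at h1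
      by_contra hcon
      rw [if_neg hcon] at h1
      exact hpq h1.symm

/-- The words with many of the letters `p`, `q`. -/
lemma main_words (hpq : p ≠ q) (hω : ∀ i, ω i p = ω i q + 2 ∨ ω i q = ω i p + 2)
    (Q : (I → ι) → Prop) [DecidablePred Q]
    (hQ : ∀ x y, mu p q x = mu p q y → Q x → Q y) (θ : ℕ) :
    ((({x | Q x ∧ (wt ω x = 0 ∨ wt ω x = 1) ∧ θ < (jset p q x).card} :
      Finset (I → ι)).card : ℕ) : ℝ) ≤
      1 / √(θ + 2) * (({x | Q x} : Finset (I → ι)).card : ℕ) := by
  set A : Finset (I → ι) := {x | Q x ∧ (wt ω x = 0 ∨ wt ω x = 1) ∧ θ < (jset p q x).card} with hA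
  set B : Finset (I → ι) := {x | Q x} with hB
  have h1 : A.card = ∑ m ∈ B.image (mu p q), (A.filter fun x => mu p q x = m).card :=
    Finset.card_eq_sum_card_fiberwise (fun x hx => by
      rw [Finset.mem_coe] at hx ⊢
      rw [hA, Finset.mem_filter] at hx
      exact Finset.mem_image_of_mem _ (by rw [hB, Finset.mem_filter]; exact ⟨hx.1, hx.2.1⟩))
  have h2 : B.card = ∑ m ∈ B.image (mu p q), (B.filter fun x => mu p q x = m).card :=
    Finset.card_eq_sum_card_fiberwise (fun x hx => by
      rw [Finset.mem_coe] at hx ⊢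
      exact Finset.mem_image_of_mem _ hx)
  rw [h1, h2]
  push_cast
  rw [Finset.mul_sum]
  refine Finset.sum_le_sum fun m _ => ?_
  rcases (A.filter fun x => mu p q x = m).eq_empty_or_nonempty with h3 | ⟨x₀, hx₀⟩
  · rw [h3]
    simp only [Finset.card_empty, Nat.cast_zero]
    positivity
  · rw [Finset.mem_filter, hA, Finset.mem_filter] at hx₀
    obtain ⟨⟨-, hQ0, -, hj⟩, hm⟩ := hx₀
    have h4 : (A.filter fun x => mu p q x = m).card ≤
        (jset p q x₀).card.choose ((jset p q x₀).card / 2) := by
      refine le_trans (Finset.card_le_card ?_) (card_fibre_le hω x₀)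
      intro x hx
      rw [Finset.mem_filter, hA, Finset.mem_filter] at hx
      rw [Finset.mem_filter]
      exact ⟨Finset.mem_univ _, hx.2.trans hm.symm, hx.1.2.2.1⟩
    have h5 : 2 ^ (jset p q x₀).card ≤ (B.filter fun x => mu p q x = m).card := by
      refine le_trans (le_card_fibre hpq x₀) (Finset.card_le_card ?_)
      intro x hx
      rw [Finset.mem_filter] at hx
      rw [Finset.mem_filter, hB, Finset.mem_filter]
      exact ⟨⟨Finset.mem_univ _, hQ x₀ x hx.2.symm hQ0⟩, hx.2.trans hm⟩
    have h6 := choose_half_le (jset p q x₀).card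
    have h7 : (0 : ℝ) < √(θ + 2) := Real.sqrt_pos.2 (by positivity)
    calc (((A.filter fun x => mu p q x = m).card : ℕ) : ℝ)
        ≤ (((jset p q x₀).card.choose ((jset p q x₀).card / 2) : ℕ) : ℝ) := by exact_mod_cast h4
      _ ≤ 2 ^ (jset p q x₀).card / √((jset p q x₀).card + 1) := h6
      _ ≤ 2 ^ (jset p q x₀).card / √(θ + 2) := by
          have : ((θ + 1 : ℕ) : ℝ) ≤ ((jset p q x₀).card : ℝ) := by exact_mod_cast hj
          push_cast at this
          exact div_le_div_of_nonneg_left (by positivity) h7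
            (Real.sqrt_le_sqrt (by linarith))
      _ = 1 / √(θ + 2) * 2 ^ (jset p q x₀).card := by ring
      _ ≤ 1 / √(θ + 2) * (((B.filter fun x => mu p q x = m).card : ℕ) : ℝ) := by
          gcongr
          exact_mod_cast h5

/-- The words with few of the letters `p`, `q`. -/
lemma few_words (hpq : p ≠ q) (θ : ℕ) :
    ((({x | (jset p q x).card ≤ θ} : Finset (I → ι)).card : ℕ) : ℝ) ≤
      2 ^ θ * ((Fintype.card ι : ℝ) - 1) ^ Fintype.card I := by
  let g : ι → ℝ := fun l => if l = p ∨ l = q then 1 / 2 else 1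
  have hg : ∑ l, g l = (Fintype.card ι : ℝ) - 1 := by
    have h1 : ∀ l, g l = 1 - (if l = p then 1 / 2 else 0) - (if l = q then 1 / 2 else 0) := by
      intro l
      simp only [g]
      by_cases h2 : l = p
      · have h3 : ¬ l = q := fun h => hpq (h2.symm.trans h)
        simp [h2, hpq]
        norm_num
      · by_cases h3 : l = q
        · simp [h3, Ne.symm hpq]
          norm_num
        · simp [h2, h3]
    rw [Finset.sum_congr rfl fun l _ => h1 l, Finset.sum_sub_distrib, Finset.sum_sub_distrib]
    simp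
    norm_num
    ring
  have hprod : ∀ x : I → ι, ∏ i, g (x i) = (1 / 2) ^ (jset p q x).card := by
    intro x
    rw [← Finset.prod_const, jset, Finset.prod_filter]
  have hsum : ∑ x : I → ι, ∏ i, g (x i) = ((Fintype.card ι : ℝ) - 1) ^ Fintype.card I := by
    rw [← hg, ← Finset.card_univ, ← Finset.prod_const, Finset.prod_univ_sum]
    simp
  rw [← hsum, Finset.mul_sum]
  have h1 : ((({x | (jset p q x).card ≤ θ} : Finset (I → ι)).card : ℕ) : ℝ) =
      ∑ x ∈ ({x | (jset p q x).card ≤ θ} : Finset (I → ι)), (1 : ℝ) := by simp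
  rw [h1]
  refine le_trans (Finset.sum_le_sum fun x hx => ?_)
    (Finset.sum_le_sum_of_subset_of_nonneg (Finset.subset_univ _) fun x _ _ => ?_)
  · rw [Finset.mem_filter] at hx
    rw [hprod, one_div, inv_pow, ← div_eq_mul_inv, one_le_div (by positivity)]
    exact pow_le_pow_right₀ (by norm_num) hx.2
  · rw [hprod]; positivity

end words

end Pool.Agent.H17Ss
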