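import Pool.Agent.H17Ss.Dat
import Pool.Agent.H17Ss.Cnt

/-!
# The commutant of a tensor power: comparison of dimensions
-/

set_option autoImplicit false

namespace Pool.Agent.H17Ss

open Module Finset Matrix

variable {K : Type*} [Field K] {ι : Type*} [Fintype ι] [DecidableEq ι] {n : ℕ}
  {s : ι → K} {w : ι → ℤ} {N f : Matrix ι ι K}

/-- the tensor power of `diag s * (1 + N)` -/
def big (n : ℕ) (s : ι → K) (N : Matrix ι ι K) : Matrix (Fin n → ι) (Fin n → ι) K :=
  tens fun _ => Matrix.diagonal s * (1 + N)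

lemma big_apply (a b : Fin n → ι) :
    big n s N a b = sp s a * tens (fun _ => 1 + N) a b := by
  rw [big, tens_apply, tens_apply, sp, ← Finset.prod_mul_distrib]
  refine Finset.prod_congr rfl fun i _ => ?_
  rw [Matrix.diagonal_mul]

lemma Dat.sp_ne (h : Dat s w N f) (a : Fin n → ι) : sp s a ≠ 0 :=
  Finset.prod_ne_zero_iff.2 fun i _ => h.s0 (a i)

lemma Dat.tri (h : Dat s w N f) : Tri (big n s N) (sp s) (ww w) where
  diag := fun a => by rw [big_apply, h.tens_self, mul_one]
  off := fun a b hab h1 => by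
    rw [big_apply] at h1
    obtain ⟨h2, h3⟩ := h.tens_ne (right_ne_zero_of_mul h1)
    refine ⟨h2, ?_⟩
    have h4 : 0 < ({i | a i ≠ b i} : Finset (Fin n)).card := by
      rw [Finset.card_pos]
      obtain ⟨i, hi⟩ := Function.ne_iff.1 hab
      exact ⟨i, by simpa using hi⟩
    omega

lemma Dat.adm_big (_h : Dat s w N f) {X : Matrix (Fin n → ι) (Fin n → ι) K}
    (hX : X ∈ Mn (sp s)) (a b : Fin n → ι) :
    adm (big n s N) X a b = sp s a * adm (tens (fun _ => 1 + N)) X a b := by
  rw [adm_apply, adm_apply, Matrix.sub_apply, Matrix.sub_apply, mul_sub, Matrix.mul_apply,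
    Matrix.mul_apply, Matrix.mul_apply, Matrix.mul_apply, Finset.mul_sum, Finset.mul_sum]
  congr 1
  · refine Finset.sum_congr rfl fun c _ => ?_
    rw [big_apply, mul_assoc]
  · refine Finset.sum_congr rfl fun c _ => ?_
    rw [big_apply]
    by_cases h1 : sp s a = sp s c
    · rw [h1]; ring
    · rw [hX a c h1]; ring

open Classical in
/-- the commutant -/
theorem Dat.finrank_comm_le [CharZero K] (h : Dat s w N f) :
    finrank K (LinearMap.ker (adm (big n s N))) ≤
      (({c | sp s c.1 = sp s c.2 ∧ (ww w c.1 - ww w c.2 = 0 ∨ ww w c.1 - ww w c.2 = 1)} :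
        Finset ((Fin n → ι) × (Fin n → ι))).card) := by
  refine le_trans ?_ h.finrank_ker_le
  have hmem : ∀ X ∈ LinearMap.ker (adm (big n s N)), X ∈ Mn (sp s) := fun X hX =>
    h.tri.mem_of_comm hX
  let i : LinearMap.ker (adm (big n s N)) →ₗ[K] LinearMap.ker (adR (n := n) h.cls_tens) :=
    { toFun := fun X => ⟨⟨X.1, hmem X.1 X.2⟩, by
        rw [LinearMap.mem_ker]
        refine Subtype.ext ?_
        rw [adR_coe]
        ext a b
        have h1 := h.adm_big (hmem X.1 X.2) a b
        have h2 : adm (big n s N) X.1 = 0 := X.2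
        rw [h2, Matrix.zero_apply] at h1
        exact (mul_eq_zero.1 h1.symm).resolve_left (h.sp_ne a)⟩
      map_add' := fun _ _ => rfl
      map_smul' := fun _ _ => rfl }
  refine LinearMap.finrank_le_finrank_of_injective (f := i) ?_
  intro x y hxy
  apply Subtype.ext
  exact congrArg (fun z : LinearMap.ker (adR (n := n) h.cls_tens) =>
    ((z : Mn (sp (n := n) s)) : Matrix (Fin n → ι) (Fin n → ι) K)) hxy

open Classical in
/-- the generalised eigenspace -/
theorem Dat.card_le_finrank_gen (h : Dat s w N f) :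
    (({c | sp s c.1 = sp s c.2} : Finset ((Fin n → ι) × (Fin n → ι))).card) ≤
      finrank K ((adm (big n s N)).maxGenEigenspace 0) := by
  have h1 : Mn (sp (n := n) s) ≤ (adm (big n s N)).maxGenEigenspace 0 := by
    intro X hX
    rw [Module.End.mem_maxGenEigenspace]
    obtain ⟨k, hk⟩ := h.tri.nilp hX
    exact ⟨k, by rw [zero_smul, sub_zero]; exact hk⟩
  refine le_trans ?_ (Submodule.finrank_mono h1)
  have h2 : (({c | sp s c.1 = sp s c.2} : Finset ((Fin n → ι) × (Fin n → ι))).card) =
      finrank K ({c : (Fin n → ι) × (Fin n → ι) // sp s c.1 = sp s c.2} → K) := by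
    rw [Module.finrank_fintype_fun_eq_card, Fintype.card_subtype]
  rw [h2]
  let i : ({c : (Fin n → ι) × (Fin n → ι) // sp s c.1 = sp s c.2} → K) →ₗ[K]
      Mn (sp (n := n) s) :=
    { toFun := fun g => ⟨Matrix.of fun a b =>
        if h : sp s a = sp s b then g ⟨(a, b), h⟩ else 0, fun a b hab => by
          rw [Matrix.of_apply, dif_neg hab]⟩
      map_add' := fun g g' => by
        refine Subtype.ext (Matrix.ext fun a b => ?_)
        change (if h : sp s a = sp s b then (g + g') ⟨(a, b), h⟩ else 0) =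
          (if h : sp s a = sp s b then g ⟨(a, b), h⟩ else 0) +
          (if h : sp s a = sp s b then g' ⟨(a, b), h⟩ else 0)
        split_ifs
        · rfl
        · rw [add_zero]
      map_smul' := fun r g => by
        refine Subtype.ext (Matrix.ext fun a b => ?_)
        change (if h : sp s a = sp s b then (r • g) ⟨(a, b), h⟩ else 0) =
          r • (if h : sp s a = sp s b then g ⟨(a, b), h⟩ else 0)
        split_ifs
        · rfl
        · rw [smul_zero] }
  refine LinearMap.finrank_le_finrank_of_injective (f := i) ?_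
  intro g g' hg
  funext ⟨⟨a, b⟩, hc⟩
  have h3 := congrArg (fun z : Mn (sp (n := n) s) => (z : Matrix (Fin n → ι) (Fin n → ι) K) a b) hg
  simp only [i, LinearMap.coe_mk, AddHom.coe_mk, Matrix.of_apply] at h3
  rw [dif_pos hc, dif_pos hc] at h3
  exact h3

omit [Fintype ι] [DecidableEq ι] in
lemma wt_sum (x : Fin n ⊕ Fin n → ι) :
    wt (Sum.elim (fun _ => w) fun _ => -w) x =
      ww w (fun i => x (Sum.inl i)) - ww w (fun i => x (Sum.inr i)) := by
  rw [wt, Fintype.sum_sum_type, ww, ww, sub_eq_add_neg, ← Finset.sum_neg_distrib]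
  rfl

open Classical in
/-- **Comparison**: the commutant is much smaller than the generalised eigenspace. -/
theorem Dat.compare [CharZero K] (h : Dat s w N f) (hn : 1 ≤ n) {p q : ι} (hpq : p ≠ q)
    (hs : s p = s q) (hw : w p = w q + 2) :
    (finrank K (LinearMap.ker (adm (big n s N))) : ℝ) ≤
      (√((Fintype.card ι : ℝ) / (2 * n)) + ((n : ℝ) + 1) ^ Fintype.card ι *
        (1 - 1 / (Fintype.card ι : ℝ) ^ 2) ^ (2 * n)) *
      (finrank K ((adm (big n s N)).maxGenEigenspace 0) : ℝ) := by
  have hD : 1 < Fintype.card ι := Fintype.one_lt_card_iff.2 ⟨p, q, hpq⟩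
  have hDr : (1 : ℝ) < Fintype.card ι := by exact_mod_cast hD
  have h1 := h.finrank_comm_le (n := n)
  have h2 := h.card_le_finrank_gen (n := n)
  have h3 := count hn s w hpq hs hw
  have e1 : (({c | sp s c.1 = sp s c.2 ∧ (ww w c.1 - ww w c.2 = 0 ∨ ww w c.1 - ww w c.2 = 1)} :
        Finset ((Fin n → ι) × (Fin n → ι))).card) =
      (({x | Eqv s x ∧ (wt (Sum.elim (fun _ => w) fun _ => -w) x = 0 ∨
      wt (Sum.elim (fun _ => w) fun _ => -w) x = 1)} : Finset (Fin n ⊕ Fin n → ι)).card) := by
    refine Finset.card_equiv (Equiv.sumArrowEquivProdArrow (Fin n) (Fin n) ι).symm fun c => ?_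
    rw [Finset.mem_filter, Finset.mem_filter, wt_sum]
    simp only [Finset.mem_univ, true_and, Eqv, sp]
    rfl
  have e2 : (({c | sp s c.1 = sp s c.2} : Finset ((Fin n → ι) × (Fin n → ι))).card) =
      (({x | Eqv s x} : Finset (Fin n ⊕ Fin n → ι)).card) := by
    refine Finset.card_equiv (Equiv.sumArrowEquivProdArrow (Fin n) (Fin n) ι).symm fun c => ?_
    rw [Finset.mem_filter, Finset.mem_filter]
    simp only [Finset.mem_univ, true_and, Eqv, sp]
    rfl
  rw [e1] at h1
  rw [e2] at h2
  refine le_trans (by exact_mod_cast h1) (h3.trans ?_)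
  refine mul_le_mul_of_nonneg_left (by exact_mod_cast h2) ?_
  have h4 : 0 ≤ 1 - 1 / (Fintype.card ι : ℝ) ^ 2 := by
    rw [sub_nonneg, div_le_one (by positivity)]
    nlinarith
  positivity

end Pool.Agent.H17Ss
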