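import Pool.Agent.H17Ss.Mat

/-!
# The commutant of a tensor power of a matrix in Jordan form
-/

set_option autoImplicit false

namespace Pool.Agent.H17Ss

open Module Finset Matrix

variable {K : Type*} [Field K] {ι : Type*} [Fintype ι] [DecidableEq ι]

/-- A Jordan basis: `N` raises the weight by two, `f` completes it to an `sl(2)`-triple, both
preserve the classes given by `s`. -/
structure Dat (s : ι → K) (w : ι → ℤ) (N f : Matrix ι ι K) : Prop where
  s0 : ∀ i, s i ≠ 0
  hN : ∀ i j, N i j ≠ 0 → s i = s j ∧ w i = w j + 2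
  hf : ∀ i j, f i j ≠ 0 → s i = s j ∧ w i = w j - 2
  nf : N * f - f * N = Matrix.diagonal fun i => (w i : K)

/-- the product of the eigenvalues of a word -/
def sp {n : ℕ} (s : ι → K) (a : Fin n → ι) : K := ∏ i, s (a i)

/-- the weight of a word -/
def ww {n : ℕ} (w : ι → ℤ) (a : Fin n → ι) : ℤ := ∑ i, w (a i)

section der

variable {n : ℕ} {s : ι → K} {w : ι → ℤ}

omit [Fintype ι] in
lemma der_ne {x : Matrix ι ι K} {a b : Fin n → ι} (h : der x a b ≠ 0) :
    ∃ i, x (a i) (b i) ≠ 0 ∧ ∀ j, j ≠ i → a j = b j := by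
  rw [der_apply] at h
  obtain ⟨i, -, hi⟩ := Finset.exists_ne_zero_of_sum_ne_zero h
  exact ⟨i, left_ne_zero_of_mul hi, fun j hj =>
    prod_one_ne (right_ne_zero_of_mul hi) (Finset.mem_erase.2 ⟨hj, Finset.mem_univ j⟩)⟩

omit [Fintype ι] in
lemma der_weight {x : Matrix ι ι K} {t : ℤ} (hx : ∀ i j, x i j ≠ 0 → s i = s j ∧ w i = w j + t)
    {a b : Fin n → ι} (h : der x a b ≠ 0) : sp s a = sp s b ∧ ww w a = ww w b + t := by
  obtain ⟨i, h1, h2⟩ := der_ne h
  obtain ⟨h3, h4⟩ := hx _ _ h1
  refine ⟨?_, ?_⟩
  · refine Finset.prod_congr rfl fun j _ => ?_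
    by_cases hj : j = i
    · subst hj; exact h3
    · rw [h2 j hj]
  · rw [ww, ww, ← Finset.add_sum_erase univ _ (Finset.mem_univ i),
      ← Finset.add_sum_erase univ (fun j => w (b j)) (Finset.mem_univ i), h4]
    rw [Finset.sum_congr rfl (fun j hj => by rw [h2 j (Finset.ne_of_mem_erase hj)])]
    ring

omit [Fintype ι] in
lemma der_diag (a b : Fin n → ι) :
    der (Matrix.diagonal fun i => (w i : K)) a b = if a = b then (ww w a : K) else 0 := by
  by_cases h : a = b
  · subst h
    rw [if_pos rfl, der_apply, ww]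
    push_cast
    refine Finset.sum_congr rfl fun i _ => ?_
    rw [prod_one_eq (fun j _ => rfl), mul_one, Matrix.diagonal_apply_eq]
  · rw [if_neg h]
    by_contra hcon
    obtain ⟨i, h1, h2⟩ := der_ne hcon
    apply h
    funext j
    by_cases hj : j = i
    · subst hj
      by_contra h3
      exact h1 (Matrix.diagonal_apply_ne _ h3)
    · exact h2 j hj

end der

/-! ### The tensor power of `1 + N` -/

section one_add

variable {n : ℕ} {s : ι → K} {w : ι → ℤ} {N f : Matrix ι ι K} (h : Dat s w N f)

include h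

lemma Dat.diag0 (i : ι) : N i i = 0 := by
  by_contra h1
  have := (h.hN i i h1).2
  omega

lemma Dat.one_add {i j : ι} (h1 : (1 + N) i j ≠ 0) :
    s i = s j ∧ ((i = j ∧ w i = w j) ∨ w i = w j + 2) := by
  by_cases hij : i = j
  · subst hij; exact ⟨rfl, Or.inl ⟨rfl, rfl⟩⟩
  · rw [Matrix.add_apply, Matrix.one_apply_ne hij, zero_add] at h1
    exact ⟨(h.hN i j h1).1, Or.inr (h.hN i j h1).2⟩

lemma Dat.tens_self (a : Fin n → ι) : tens (fun _ => 1 + N) a a = 1 := by
  rw [tens_apply]
  refine Finset.prod_eq_one fun i _ => ?_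
  rw [Matrix.add_apply, Matrix.one_apply_eq, h.diag0, add_zero]

lemma Dat.tens_ne {a b : Fin n → ι} (h1 : tens (fun _ => 1 + N) a b ≠ 0) :
    sp s a = sp s b ∧ ww w a = ww w b + 2 * (({i | a i ≠ b i} : Finset (Fin n)).card : ℤ) := by
  rw [tens_apply, Finset.prod_ne_zero_iff] at h1
  refine ⟨Finset.prod_congr rfl fun i hi => (h.one_add (h1 i hi)).1, ?_⟩
  have h2 : (({i | a i ≠ b i} : Finset (Fin n)).card : ℤ) = ∑ i, if a i ≠ b i then 1 else 0 := by
    rw [Finset.card_filter]
    push_cast
    rfl
  rw [h2, Finset.mul_sum, ww, ww, ← Finset.sum_add_distrib]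
  refine Finset.sum_congr rfl fun i hi => ?_
  rcases (h.one_add (h1 i hi)).2 with ⟨h3, h4⟩ | h3
  · rw [if_neg (by simp [h3])]; omega
  · have h4 : a i ≠ b i := fun h5 => by rw [h5] at h3; omega
    rw [if_pos h4, h3]; ring

lemma Dat.der_self (a : Fin n → ι) : der N a a = 0 := by
  by_contra h1
  have := (der_weight h.hN h1).2
  omega

lemma Dat.tens_eq_der {a b : Fin n → ι} (hab : a ≠ b) (hw : ww w a ≤ ww w b + 2) :
    tens (fun _ => 1 + N) a b = der N a b := by
  have hne : ({i | a i ≠ b i} : Finset (Fin n)).Nonempty := by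
    obtain ⟨i, hi⟩ := Function.ne_iff.1 hab
    exact ⟨i, by simpa using hi⟩
  rcases Nat.lt_or_ge 1 (({i | a i ≠ b i} : Finset (Fin n)).card) with h1 | h1
  · -- at least two places
    have h2 : tens (fun _ => 1 + N) a b = 0 := by
      by_contra hcon
      have := (h.tens_ne hcon).2
      omega
    have h3 : der N a b = 0 := by
      by_contra hcon
      obtain ⟨i, -, h4⟩ := der_ne hcon
      have h5 : ({i | a i ≠ b i} : Finset (Fin n)) ⊆ {i} := by
        intro j hj
        rw [Finset.mem_filter] at hj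
        rw [Finset.mem_singleton]
        by_contra h6
        exact hj.2 (h4 j h6)
      have := Finset.card_le_card h5
      rw [Finset.card_singleton] at this
      omega
    rw [h2, h3]
  · -- one place
    have h2 : ({i | a i ≠ b i} : Finset (Fin n)).card = 1 :=
      le_antisymm h1 (Finset.card_pos.2 hne)
    obtain ⟨i, hi⟩ := Finset.card_eq_one.1 h2
    have h3 : ∀ j, j ≠ i → a j = b j := by
      intro j hj
      by_contra h4
      have : j ∈ ({i | a i ≠ b i} : Finset (Fin n)) := by simpa using h4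
      rw [hi, Finset.mem_singleton] at this
      exact hj this
    have h4 : a i ≠ b i := by
      have : i ∈ ({i | a i ≠ b i} : Finset (Fin n)) := by rw [hi]; exact Finset.mem_singleton_self i
      simpa using this
    rw [tens_apply, ← Finset.mul_prod_erase univ _ (Finset.mem_univ i), der_apply,
      Finset.sum_eq_single i]
    · rw [prod_one_eq fun j hj => h3 j (Finset.ne_of_mem_erase hj), mul_one,
        Finset.prod_eq_one, mul_one, Matrix.add_apply, Matrix.one_apply_ne h4, zero_add]
      intro j hj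
      rw [h3 j (Finset.ne_of_mem_erase hj), Matrix.add_apply, Matrix.one_apply_eq, h.diag0,
        add_zero]
    · intro j _ hj
      have h5 : ∏ k ∈ univ.erase j, (1 : Matrix ι ι K) (a k) (b k) = 0 :=
        Finset.prod_eq_zero (i := i) (Finset.mem_erase.2 ⟨hj.symm, Finset.mem_univ i⟩)
          (Matrix.one_apply_ne h4)
      rw [h5, mul_zero]
    · intro h5; exact absurd (Finset.mem_univ i) h5

end one_add

/-! ### Operators on the matrices with entries between indices of the same class -/

section ops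

variable {n : ℕ} {s : ι → K} {w : ι → ℤ} {N f : Matrix ι ι K}

/-- entries only between indices of the same class -/
def Cls (s : ι → K) (M : Matrix (Fin n → ι) (Fin n → ι) K) : Prop :=
  ∀ a b, M a b ≠ 0 → sp s a = sp s b

omit [Fintype ι] [DecidableEq ι] in
lemma Cls.mem {M : Matrix (Fin n → ι) (Fin n → ι) K} (h : Cls s M) : M ∈ Mn (sp s) := by
  intro a b hab
  by_contra h1
  exact hab (h a b h1)

lemma adm_mem {M X : Matrix (Fin n → ι) (Fin n → ι) K} (hM : Cls s M) (hX : X ∈ Mn (sp s)) :
    adm M X ∈ Mn (sp s) := by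
  intro a b hab
  rw [adm_apply, Matrix.sub_apply, Matrix.mul_apply, Matrix.mul_apply, sub_eq_zero,
    Finset.sum_eq_zero, Finset.sum_eq_zero]
  · intro c _
    by_contra h1
    have h2 := hM c b (right_ne_zero_of_mul h1)
    exact left_ne_zero_of_mul h1 (hX a c (by rw [h2]; exact hab))
  · intro c _
    by_contra h1
    have h2 := hM a c (left_ne_zero_of_mul h1)
    exact right_ne_zero_of_mul h1 (hX c b (by rw [← h2]; exact hab))

/-- the commutator as an operator -/
def adR {M : Matrix (Fin n → ι) (Fin n → ι) K} (hM : Cls s M) : End K (Mn (sp (n := n) s)) :=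
  (adm M).restrict fun _ hX => adm_mem hM hX

lemma adR_coe {M : Matrix (Fin n → ι) (Fin n → ι) K} (hM : Cls s M) (X : Mn (sp (n := n) s)) :
    (adR hM X : Matrix (Fin n → ι) (Fin n → ι) K) = adm M X := rfl

omit [Fintype ι] in
lemma ent_mem {X : Matrix (Fin n → ι) (Fin n → ι) K} (c : (Fin n → ι) × (Fin n → ι))
    (hX : X ∈ Mn (sp s)) : ent c X ∈ Mn (sp s) := by
  intro a b hab
  rw [ent_apply, Matrix.single_apply]
  split_ifs with h
  · rw [h.1, h.2]; exact hX a b hab
  · rfl

/-- one entry -/
def enR (s : ι → K) (c : (Fin n → ι) × (Fin n → ι)) : End K (Mn (sp (n := n) s)) :=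
  (ent c).restrict fun _ hX => ent_mem c hX

omit [Fintype ι] in
lemma enR_coe (c : (Fin n → ι) × (Fin n → ι)) (X : Mn (sp (n := n) s)) :
    (enR s c X : Matrix (Fin n → ι) (Fin n → ι) K) = ent c X := rfl

lemma sum_enR : ∑ c, enR (n := n) s c = 1 := by
  refine LinearMap.ext fun X => Subtype.ext ?_
  rw [LinearMap.sum_apply, Submodule.coe_sum]
  have := congrArg (fun F : End K (Matrix (Fin n → ι) (Fin n → ι) K) => F X) sum_ent
  simp only [LinearMap.sum_apply] at this
  exact this

omit [Fintype ι] in
lemma enR_mul (c d : (Fin n → ι) × (Fin n → ι)) :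
    enR s c * enR s d = if c = d then enR s c else 0 := by
  refine LinearMap.ext fun X => Subtype.ext ?_
  have := congrArg (fun F : End K (Matrix (Fin n → ι) (Fin n → ι) K) => F X) (ent_mul c d)
  simp only [Module.End.mul_apply] at this
  rw [Module.End.mul_apply, enR_coe, enR_coe, this]
  split_ifs <;> rfl

/-- the coefficient of a block of a commutator -/
def coef (M : Matrix (Fin n → ι) (Fin n → ι) K) (c d : (Fin n → ι) × (Fin n → ι)) : K :=
  (if d.2 = c.2 then M c.1 d.1 else 0) - (if d.1 = c.1 then M d.2 c.2 else 0)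

lemma blk_eq {M M' : Matrix (Fin n → ι) (Fin n → ι) K} (hM : Cls s M) (hM' : Cls s M')
    {c d : (Fin n → ι) × (Fin n → ι)} (h : coef M c d = coef M' c d) :
    enR s c * adR hM * enR s d = enR s c * adR hM' * enR s d := by
  refine LinearMap.ext fun X => Subtype.ext ?_
  simp only [Module.End.mul_apply, enR_coe, adR_coe]
  rw [ent_adm_ent, ent_adm_ent]
  unfold coef at h
  rw [h]

lemma blk_zero {M : Matrix (Fin n → ι) (Fin n → ι) K} (hM : Cls s M)
    {c d : (Fin n → ι) × (Fin n → ι)} (h : coef M c d = 0) :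
    enR s c * adR hM * enR s d = 0 := by
  refine LinearMap.ext fun X => Subtype.ext ?_
  simp only [Module.End.mul_apply, enR_coe, adR_coe]
  rw [ent_adm_ent]
  unfold coef at h
  rw [h, zero_mul, Matrix.single_zero]
  rfl

omit [Fintype ι] in
lemma coef_zero {M : Matrix (Fin n → ι) (Fin n → ι) K} {t : ℤ}
    (hM : ∀ a b, M a b ≠ 0 → ww w a = ww w b + t) {c d : (Fin n → ι) × (Fin n → ι)}
    (h : ww w c.1 - ww w c.2 ≠ ww w d.1 - ww w d.2 + t) : coef M c d = 0 := by
  unfold coef
  have h1 : (if d.2 = c.2 then M c.1 d.1 else 0) = 0 := by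
    split_ifs with h2
    · by_contra h3
      have := hM _ _ h3
      rw [h2] at h
      omega
    · rfl
  have h2 : (if d.1 = c.1 then M d.2 c.2 else 0) = 0 := by
    split_ifs with h2
    · by_contra h3
      have := hM _ _ h3
      rw [h2] at h
      omega
    · rfl
  rw [h1, h2, sub_zero]

omit [Fintype ι] in
lemma cls_der {x : Matrix ι ι K} {t : ℤ} (hx : ∀ i j, x i j ≠ 0 → s i = s j ∧ w i = w j + t) :
    Cls s (der x : Matrix (Fin n → ι) (Fin n → ι) K) :=
  fun _ _ h => (der_weight hx h).1

omit [Fintype ι] in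
lemma hdiag : ∀ i j, (Matrix.diagonal fun i => (w i : K)) i j ≠ 0 → s i = s j ∧ w i = w j + 0 := by
  intro i j h
  have : i = j := by
    by_contra h1
    exact h (Matrix.diagonal_apply_ne _ h1)
  subst this
  exact ⟨rfl, (add_zero _).symm⟩

lemma Dat.hf' (h : Dat s w N f) : ∀ i j, f i j ≠ 0 → s i = s j ∧ w i = w j + (-2) := by
  intro i j hij
  have := h.hf i j hij
  exact ⟨this.1, by omega⟩

lemma adR_comm {x y z : Matrix (Fin n → ι) (Fin n → ι) K} (hx : Cls s x) (hy : Cls s y)
    (hz : Cls s z) (h : x * y - y * x = z) : adR hx * adR hy - adR hy * adR hx = adR hz := by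
  refine LinearMap.ext fun X => Subtype.ext ?_
  have := congrArg (fun F : End K (Matrix (Fin n → ι) (Fin n → ι) K) => F X) (adm_comm x y)
  simp only [LinearMap.sub_apply, Module.End.mul_apply] at this
  rw [h] at this
  exact this

lemma adR_comm_smul {x y z : Matrix (Fin n → ι) (Fin n → ι) K} (hx : Cls s x) (hy : Cls s y)
    (hz : Cls s z) {c : K} (h : x * y - y * x = c • z) :
    adR hx * adR hy - adR hy * adR hx = c • adR hz := by
  refine LinearMap.ext fun X => Subtype.ext ?_
  have := congrArg (fun F : End K (Matrix (Fin n → ι) (Fin n → ι) K) => F X) (adm_comm x y)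
  simp only [LinearMap.sub_apply, Module.End.mul_apply] at this
  rw [h, adm_smul] at this
  exact this

omit [DecidableEq ι] in
lemma diag_comm [DecidableEq ι] {x : Matrix ι ι K} {t : ℤ}
    (hx : ∀ i j, x i j ≠ 0 → s i = s j ∧ w i = w j + t) :
    (Matrix.diagonal fun i => (w i : K)) * x - x * (Matrix.diagonal fun i => (w i : K)) =
      (t : K) • x := by
  ext i j
  rw [Matrix.sub_apply, Matrix.diagonal_mul, Matrix.mul_diagonal, Matrix.smul_apply, smul_eq_mul]
  by_cases h : x i j = 0
  · rw [h]; ring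
  · have := (hx i j h).2
    have h2 : (w i : K) = (w j : K) + (t : K) := by rw [this]; push_cast; ring
    rw [h2]; ring

/-- the block structure -/
lemma Dat.blocks [CharZero K] (h : Dat s w N f) :
    Blocks (enR (n := n) s) (fun c => ww w c.1 - ww w c.2) (adR (cls_der h.hN))
      (adR (cls_der h.hf')) (adR (cls_der (hdiag (s := s) (w := w)))) where
  sum := sum_enR
  mul := enR_mul
  nf := adR_comm _ _ _ (by rw [der_comm, h.nf])
  hn := by
    have := adR_comm_smul (n := n) (c := (2 : K)) (cls_der (hdiag (s := s) (w := w)))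
      (cls_der h.hN) (cls_der h.hN) (by
        rw [der_comm, diag_comm h.hN, der_smul]
        push_cast
        rfl)
    rw [this, ofNat_smul_eq_nsmul K 2]
  hf := by
    have := adR_comm_smul (n := n) (c := (-2 : K)) (cls_der (hdiag (s := s) (w := w)))
      (cls_der h.hf') (cls_der h.hf') (by
        rw [der_comm, diag_comm h.hf', der_smul]
        push_cast
        rfl)
    have e : (-2 : K) • adR (n := n) (cls_der h.hf') = -((2 : K) • adR (cls_der h.hf')) := by
      refine LinearMap.ext fun X => ?_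
      rw [LinearMap.smul_apply, LinearMap.neg_apply, LinearMap.smul_apply, neg_smul]
    rw [this, e, ofNat_smul_eq_nsmul K 2]
  n0 := fun c d hcd => blk_zero _ (coef_zero (fun a b hab => (der_weight h.hN hab).2) hcd)
  f0 := fun c d hcd => blk_zero _ (coef_zero (t := -2)
    (fun a b hab => (der_weight h.hf' hab).2) (by omega))
  h0 := fun c d hcd => blk_zero _ (coef_zero (t := 0)
    (fun a b hab => (der_weight (s := s) hdiag hab).2) (by omega))
  nil := by
    refine ⟨1, fun c => ?_⟩
    rw [pow_one]
    refine LinearMap.ext fun X => Subtype.ext ?_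
    rw [Module.End.mul_apply, LinearMap.sub_apply, Module.algebraMap_end_apply]
    rw [Submodule.coe_sub, adR_coe, Submodule.coe_smul, enR_coe, LinearMap.zero_apply,
      Submodule.coe_zero]
    ext a b
    rw [Matrix.sub_apply, adm_apply, Matrix.sub_apply, Matrix.mul_apply, Matrix.mul_apply,
      Finset.sum_eq_single a, Finset.sum_eq_single b, der_diag, der_diag, if_pos rfl, if_pos rfl,
      Matrix.smul_apply, Matrix.zero_apply, ent_apply, Matrix.single_apply]
    · split_ifs with h1
      · rw [← h1.1, ← h1.2, smul_eq_mul]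
        push_cast
        ring
      · simp
    · intro x _ hx
      rw [der_diag, if_neg hx, mul_zero]
    · intro h1; exact absurd (Finset.mem_univ _) h1
    · intro x _ hx
      rw [der_diag, if_neg hx.symm, zero_mul]
    · intro h1; exact absurd (Finset.mem_univ _) h1

lemma Dat.cls_tens (h : Dat s w N f) :
    Cls s (tens (fun _ => 1 + N) : Matrix (Fin n → ι) (Fin n → ι) K) :=
  fun _ _ h1 => (h.tens_ne h1).1

lemma Dat.coef_eq (h : Dat s w N f) {c d : (Fin n → ι) × (Fin n → ι)}
    (hw : ww w c.1 - ww w c.2 ≤ ww w d.1 - ww w d.2 + 2) :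
    coef (tens (fun _ => 1 + N)) c d = coef (der N) c d := by
  unfold coef
  by_cases h1 : d.1 = c.1
  · by_cases h2 : d.2 = c.2
    · rw [if_pos h1, if_pos h1, if_pos h2, if_pos h2, h1, h2, h.tens_self, h.tens_self,
        h.der_self, h.der_self, sub_self]
      simp
    · rw [if_pos h1, if_pos h1, if_neg h2, if_neg h2, h.tens_eq_der h2]
      rw [h1] at hw
      omega
  · by_cases h2 : d.2 = c.2
    · rw [if_neg h1, if_neg h1, if_pos h2, if_pos h2, h.tens_eq_der (Ne.symm h1)]
      rw [h2] at hw
      omega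
    · rw [if_neg h1, if_neg h1, if_neg h2, if_neg h2]

omit [Fintype ι] in
open Classical in
lemma finrank_enR_le (c : (Fin n → ι) × (Fin n → ι)) :
    finrank K (LinearMap.range (enR s c)) ≤ if sp s c.1 = sp s c.2 then 1 else 0 := by
  split_ifs with h
  · have hv : Matrix.single c.1 c.2 (1 : K) ∈ Mn (sp (n := n) s) := by
      intro a b hab
      rw [Matrix.single_apply, if_neg]
      rintro ⟨h1, h2⟩
      rw [← h1, ← h2] at hab
      exact hab h
    have h2 : LinearMap.range (enR s c) ≤ Submodule.span K {⟨_, hv⟩} := by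
      rintro _ ⟨X, rfl⟩
      rw [Submodule.mem_span_singleton]
      refine ⟨(X : Matrix (Fin n → ι) (Fin n → ι) K) c.1 c.2, Subtype.ext ?_⟩
      rw [Submodule.coe_smul, enR_coe, ent_apply, Matrix.smul_single, smul_eq_mul, mul_one]
    exact (Submodule.finrank_mono h2).trans ((finrank_span_le_card _).trans (by simp))
  · have h2 : enR s c = 0 := by
      refine LinearMap.ext fun X => Subtype.ext ?_
      rw [enR_coe, ent_apply, X.2 _ _ h, Matrix.single_zero]
      rfl
    rw [h2, LinearMap.range_zero, finrank_bot]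

open Classical in
/-- **The commutant of the tensor power of a unipotent matrix.** -/
theorem Dat.finrank_ker_le [CharZero K] (h : Dat s w N f) :
    finrank K (LinearMap.ker (adR (n := n) h.cls_tens)) ≤
      (({c | sp s c.1 = sp s c.2 ∧ (ww w c.1 - ww w c.2 = 0 ∨ ww w c.1 - ww w c.2 = 1)} :
        Finset ((Fin n → ι) × (Fin n → ι))).card) := by
  refine (h.blocks.finrank_ker_le (T := adR (n := n) h.cls_tens)
    fun c d hcd => blk_eq _ _ (h.coef_eq hcd)).trans ?_
  refine (Finset.sum_le_sum fun c _ => finrank_enR_le c).trans ?_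
  rw [Finset.sum_ite, Finset.sum_const_zero, add_zero, Finset.sum_const, smul_eq_mul, mul_one]
  apply Finset.card_le_card
  intro c hc
  rw [Finset.mem_filter, Finset.mem_filter] at hc
  rw [Finset.mem_filter]
  exact ⟨Finset.mem_univ _, hc.2, hc.1.2⟩

end ops

end Pool.Agent.H17Ss
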