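import Pool.Agent.H17Ss.Jor

/-!
# Tensor powers of an automorphism
-/

set_option autoImplicit false

namespace Pool.Agent.H17Ss

open Module Finset Matrix TensorProduct

variable {K : Type*} [Field K] {V : Type*} [AddCommGroup V] [Module K V]

/-- The conjugation with the `n`-th tensor power of `F` on the endomorphisms of `V ^ ⊗ n`. -/
noncomputable def frobEnd (F : V ≃ₗ[K] V) (n : ℕ) :
    End K (End K (⨂[K] _ : Fin n, V)) :=
  ((PiTensorProduct.congr fun _ : Fin n => F).conj : _ ≃ₗ[K] _)

/-- the tensor power of `F` -/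
noncomputable def tpow (F : End K V) (n : ℕ) : End K (⨂[K] _ : Fin n, V) :=
  PiTensorProduct.map fun _ => F

lemma tpow_mul (F G : End K V) (n : ℕ) : tpow F n * tpow G n = tpow (F * G) n := by
  rw [tpow, tpow, tpow, ← PiTensorProduct.map_mul]

lemma tpow_one (n : ℕ) : tpow (1 : End K V) n = 1 := PiTensorProduct.map_one

lemma tpow_inv (F : V ≃ₗ[K] V) (n : ℕ) :
    tpow (F : End K V) n * tpow (F.symm : End K V) n = 1 := by
  rw [tpow_mul]
  have : (F : End K V) * (F.symm : End K V) = 1 := by
    refine LinearMap.ext fun x => ?_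
    exact F.apply_symm_apply x
  rw [this, tpow_one]

lemma tpow_inv' (F : V ≃ₗ[K] V) (n : ℕ) :
    tpow (F.symm : End K V) n * tpow (F : End K V) n = 1 := tpow_inv F.symm n

lemma frobEnd_apply (F : V ≃ₗ[K] V) (n : ℕ) (X : End K (⨂[K] _ : Fin n, V)) :
    frobEnd F n X = tpow (F : End K V) n * X * tpow (F.symm : End K V) n := by
  change (PiTensorProduct.congr fun _ : Fin n => F).conj X = _
  rw [LinearEquiv.conj_apply]
  rfl

/-- the commutator with the tensor power -/
noncomputable def adE (F : V ≃ₗ[K] V) (n : ℕ) : End K (End K (⨂[K] _ : Fin n, V)) :=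
  LinearMap.mulLeft K (tpow (F : End K V) n) - LinearMap.mulRight K (tpow (F : End K V) n)

lemma adE_apply (F : V ≃ₗ[K] V) (n : ℕ) (X : End K (⨂[K] _ : Fin n, V)) :
    adE F n X = tpow (F : End K V) n * X - X * tpow (F : End K V) n := rfl

lemma frobEnd_sub (F : V ≃ₗ[K] V) (n : ℕ) :
    frobEnd F n - 1 = LinearMap.mulRight K (tpow (F.symm : End K V) n) * adE F n := by
  refine LinearMap.ext fun X => ?_
  rw [LinearMap.sub_apply, frobEnd_apply, Module.End.one_apply, Module.End.mul_apply,
    LinearMap.mulRight_apply, adE_apply, sub_mul, mul_assoc X, tpow_inv, mul_one]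

lemma commute_right (F : V ≃ₗ[K] V) (n : ℕ) :
    Commute (LinearMap.mulRight K (tpow (F.symm : End K V) n)) (adE F n) := by
  refine LinearMap.ext fun X => ?_
  rw [Module.End.mul_apply, Module.End.mul_apply, LinearMap.mulRight_apply,
    LinearMap.mulRight_apply, adE_apply, adE_apply, sub_mul, mul_assoc X (tpow (F : End K V) n),
    tpow_inv, mul_assoc X (tpow (F.symm : End K V) n), tpow_inv', mul_assoc]

lemma right_inj (F : V ≃ₗ[K] V) (n : ℕ) :
    Function.Injective (LinearMap.mulRight K (tpow (F.symm : End K V) n)) := by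
  intro X Y h
  rw [LinearMap.mulRight_apply, LinearMap.mulRight_apply] at h
  have := congrArg (fun Z => Z * tpow (F : End K V) n) h
  simp only [mul_assoc, tpow_inv', mul_one] at this
  exact this

lemma pow_iff (F : V ≃ₗ[K] V) (n k : ℕ) (X : End K (⨂[K] _ : Fin n, V)) :
    ((frobEnd F n - 1) ^ k) X = 0 ↔ ((adE F n) ^ k) X = 0 := by
  rw [frobEnd_sub, (commute_right F n).mul_pow, Module.End.mul_apply]
  constructor
  · intro h
    have h1 : Function.Injective
        ((LinearMap.mulRight K (tpow (F.symm : End K V) n)) ^ k) := by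
      rw [Module.End.coe_pow]
      exact (right_inj F n).iterate k
    exact h1 (by rw [h, map_zero])
  · intro h; rw [h, map_zero]

lemma mem_eigenspace_iff' (F : V ≃ₗ[K] V) (n : ℕ) (X : End K (⨂[K] _ : Fin n, V)) :
    X ∈ (frobEnd F n).eigenspace 1 ↔ adE F n X = 0 := by
  have h1 := pow_iff F n 1 X
  rw [pow_one, pow_one, LinearMap.sub_apply, Module.End.one_apply, sub_eq_zero] at h1
  rw [Module.End.mem_eigenspace_iff, one_smul]
  exact h1

lemma mem_gen_iff (F : V ≃ₗ[K] V) (n : ℕ) (X : End K (⨂[K] _ : Fin n, V)) :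
    X ∈ (frobEnd F n).maxGenEigenspace 1 ↔ ∃ k : ℕ, ((adE F n) ^ k) X = 0 := by
  rw [Module.End.mem_maxGenEigenspace]
  refine exists_congr fun k => ?_
  rw [one_smul]
  exact pow_iff F n k X

/-! ### The matrices -/

section mat

variable {ι : Type} [Fintype ι] [DecidableEq ι] (e : Basis ι K V)

/-- the basis of the tensor power -/
noncomputable def tb (n : ℕ) : Basis (Fin n → ι) K (⨂[K] _ : Fin n, V) :=
  Basis.piTensorProduct fun _ => e

lemma toMatrix_tpow (F : End K V) (n : ℕ) :
    LinearMap.toMatrix (tb e n) (tb e n) (tpow F n) =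
      tens fun _ => LinearMap.toMatrix e e F := by
  ext p q
  rw [LinearMap.toMatrix_apply, tb, Basis.piTensorProduct_apply, tpow, PiTensorProduct.map_tprod,
    Basis.piTensorProduct_repr_tprod_apply, tens_apply]
  exact Finset.prod_congr rfl fun i _ => (LinearMap.toMatrix_apply _ _ _ _ _).symm

lemma toMatrix_adE (F : V ≃ₗ[K] V) (n : ℕ) (X : End K (⨂[K] _ : Fin n, V)) :
    LinearMap.toMatrix (tb e n) (tb e n) (adE F n X) =
      adm (tens fun _ => LinearMap.toMatrix e e (F : End K V))
        (LinearMap.toMatrix (tb e n) (tb e n) X) := by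
  rw [adE_apply, map_sub, LinearMap.toMatrix_mul, LinearMap.toMatrix_mul, toMatrix_tpow, adm_apply]

lemma toMatrix_adE_pow (F : V ≃ₗ[K] V) (n k : ℕ) (X : End K (⨂[K] _ : Fin n, V)) :
    LinearMap.toMatrix (tb e n) (tb e n) (((adE F n) ^ k) X) =
      ((adm (tens fun _ => LinearMap.toMatrix e e (F : End K V))) ^ k)
        (LinearMap.toMatrix (tb e n) (tb e n) X) := by
  induction k with
  | zero => rfl
  | succ k ih =>
    rw [pow_succ', pow_succ', Module.End.mul_apply, Module.End.mul_apply, toMatrix_adE, ih]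

lemma finrank_eigenspace_le (F : V ≃ₗ[K] V) (n : ℕ) :
    finrank K ((frobEnd F n).eigenspace 1) ≤
      finrank K (LinearMap.ker (adm (tens fun _ : Fin n => LinearMap.toMatrix e e (F : End K V)))) := by
  let g : (frobEnd F n).eigenspace 1 →ₗ[K]
      LinearMap.ker (adm (tens fun _ : Fin n => LinearMap.toMatrix e e (F : End K V))) :=
    { toFun := fun X => ⟨LinearMap.toMatrix (tb e n) (tb e n) X.1, by
        rw [LinearMap.mem_ker, ← toMatrix_adE, (mem_eigenspace_iff' F n X.1).1 X.2, map_zero]⟩
      map_add' := fun X Y => Subtype.ext (map_add _ _ _)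
      map_smul' := fun c X => Subtype.ext (map_smul _ _ _) }
  refine LinearMap.finrank_le_finrank_of_injective (f := g) ?_
  intro X Y h
  apply Subtype.ext
  apply (LinearMap.toMatrix (tb e n) (tb e n)).injective
  exact congrArg Subtype.val h

lemma finrank_gen_le (F : V ≃ₗ[K] V) (n : ℕ) [FiniteDimensional K V] :
    finrank K ((adm (tens fun _ : Fin n =>
      LinearMap.toMatrix e e (F : End K V))).maxGenEigenspace 0) ≤
      finrank K ((frobEnd F n).maxGenEigenspace 1) := by
  have : FiniteDimensional K (⨂[K] _ : Fin n, V) := Module.Finite.of_basis (tb e n)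
  let g : (adm (tens fun _ : Fin n =>
      LinearMap.toMatrix e e (F : End K V))).maxGenEigenspace 0 →ₗ[K]
      (frobEnd F n).maxGenEigenspace 1 :=
    { toFun := fun X => ⟨(LinearMap.toMatrix (tb e n) (tb e n)).symm X.1, by
        rw [mem_gen_iff]
        obtain ⟨k, hk⟩ := (Module.End.mem_maxGenEigenspace _ _ _).1 X.2
        rw [zero_smul, sub_zero] at hk
        refine ⟨k, ?_⟩
        apply (LinearMap.toMatrix (tb e n) (tb e n)).injective
        rw [toMatrix_adE_pow, LinearEquiv.apply_symm_apply, hk, map_zero]⟩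
      map_add' := fun X Y => Subtype.ext (map_add _ _ _)
      map_smul' := fun c X => Subtype.ext (map_smul _ _ _) }
  refine LinearMap.finrank_le_finrank_of_injective (f := g) ?_
  intro X Y h
  apply Subtype.ext
  apply (LinearMap.toMatrix (tb e n) (tb e n)).symm.injective
  exact congrArg Subtype.val h

end mat

/-! ### The decomposition -/

variable [IsAlgClosed K] [CharZero K] [FiniteDimensional K V]

omit [IsAlgClosed K] in
lemma exists_decomp (F : V ≃ₗ[K] V) : ∃ S N : End K V, S.IsSemisimple ∧ Function.Injective S ∧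
    IsNilpotent N ∧ Commute N S ∧ (F : End K V) = S * (1 + N) ∧ (N = 0 → (F : End K V) = S) := by
  obtain ⟨ν, hν, S, hS, hnil, hss, hF⟩ := Module.End.exists_isNilpotent_isSemisimple
    (f := (F : End K V))
  have hcomm : ∀ x ∈ Algebra.adjoin K {(F : End K V)}, ∀ y ∈ Algebra.adjoin K {(F : End K V)},
      Commute x y := by
    intro x hx y hy
    exact Algebra.commute_of_mem_adjoin_of_forall_mem_commute (R := K) (s := {(F : End K V)}) hy
      (fun b hb => by
        rw [Set.mem_singleton_iff] at hb
        rw [hb]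
        exact (Algebra.commute_of_mem_adjoin_self hx).symm)
  have hνS : Commute ν S := hcomm ν hν S hS
  have hFu : IsUnit (F : End K V) := (Module.End.isUnit_iff _).2 F.bijective
  have hSF : S = (F : End K V) - ν := by rw [hF]; abel
  have hSu : IsUnit S := by
    rw [hSF]
    have hc : Commute (F : End K V) (-ν) := by
      rw [hF]
      exact ((Commute.refl ν).add_left hνS.symm).neg_right
    rw [sub_eq_add_neg]
    exact IsNilpotent.isUnit_add_left_of_commute hnil.neg hFu hc.symm
  obtain ⟨u, hu⟩ := hSu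
  have hcu : Commute (↑u⁻¹ : End K V) ν := by
    have : Commute (u : End K V) ν := by rw [hu]; exact hνS.symm
    exact this.units_inv_left
  refine ⟨S, ↑u⁻¹ * ν, hss, ?_, ?_, ?_, ?_, ?_⟩
  · exact ((Module.End.isUnit_iff _).1 ⟨u, hu⟩).1
  · exact hcu.isNilpotent_mul_left hnil
  · refine Commute.mul_left ?_ hνS
    rw [← hu]
    exact (Commute.refl (u : End K V)).units_inv_left
  · rw [mul_add, mul_one, ← mul_assoc]
    have : S * (↑u⁻¹ : End K V) = 1 := by rw [← hu]; exact u.mul_inv
    rw [this, one_mul, hF, add_comm]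
  · intro h
    have h1 : ν = 0 := by
      have h2 := congrArg (fun x => (u : End K V) * x) h
      simp only [mul_zero, ← mul_assoc, Units.mul_inv, one_mul] at h2
      exact h2
    rw [hF, h1, zero_add]

end Pool.Agent.H17Ss
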