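import Pool.Agent.H17Ss.Comm
import Pool.Agent.W559.Vf.E1

/-!
# Jordan bases
-/

set_option autoImplicit false

namespace Pool.Agent.H17Ss

open Module Finset Matrix Polynomial

variable {K : Type*} [Field K] {V : Type*} [AddCommGroup V] [Module K V]

/-! ### Spectral projections -/

section proj

variable [IsAlgClosed K] [FiniteDimensional K V] {S : End K V}

/-- the eigenvalues -/
noncomputable def eig (S : End K V) : Finset K := by
  classical exact (minpoly K S).roots.toFinset

omit [IsAlgClosed K] in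
lemma mem_eig {μ : K} : μ ∈ eig S ↔ S.HasEigenvalue μ := by
  classical
  rw [eig, Multiset.mem_toFinset, Module.End.hasEigenvalue_iff_isRoot,
    mem_roots (minpoly.ne_zero (Algebra.IsIntegral.isIntegral S))]

lemma aeval_eq_zero (hS : S.IsSemisimple) {p : K[X]} (hp : ∀ μ ∈ eig S, p.eval μ = 0) :
    aeval S p = 0 := by
  have h1 : ⨆ μ, S.eigenspace μ ≤ LinearMap.ker (aeval S p) := by
    refine iSup_le fun μ x hx => ?_
    rw [LinearMap.mem_ker]
    by_cases hx0 : x = 0
    · rw [hx0, map_zero]
    · have h2 : S.HasEigenvector μ x := ⟨hx, hx0⟩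
      rw [Module.End.aeval_apply_of_hasEigenvector h2,
        hp μ (mem_eig.2 (Module.End.hasEigenvalue_of_hasEigenvector h2)), zero_smul]
  rw [hS.iSup_eigenspace_eq_top, top_le_iff] at h1
  exact LinearMap.ker_eq_top.1 h1

/-- spectral projections -/
noncomputable def spr (S : End K V) (i : eig S) : End K V := by
  classical exact aeval S (Lagrange.basis (eig S) id (i : K))

lemma spr_sum (hS : S.IsSemisimple) : ∑ i, spr S i = 1 := by
  classical
  have h1 : ∑ i, spr S i = aeval S (∑ i ∈ eig S, Lagrange.basis (eig S) id i) := by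
    rw [map_sum, ← Finset.sum_coe_sort (eig S)]
    rfl
  rw [h1, ← sub_eq_zero, ← map_one (aeval (R := K) S), ← map_sub]
  refine aeval_eq_zero hS fun μ hμ => ?_
  rw [eval_sub, eval_one, eval_finsetSum, Finset.sum_eq_single μ]
  · have := Lagrange.eval_basis_self (s := eig S) (v := id) Function.injective_id.injOn hμ
    simp only [id] at this
    rw [this, sub_self]
  · intro j _ hj
    exact Lagrange.eval_basis_of_ne (v := id) hj hμ
  · intro h; exact absurd hμ h

lemma spr_mul (hS : S.IsSemisimple) {i j : eig S} (hij : i ≠ j) : spr S i * spr S j = 0 := by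
  classical
  rw [spr, spr, ← map_mul]
  refine aeval_eq_zero hS fun μ hμ => ?_
  rw [eval_mul]
  by_cases h : μ = i
  · have h1 : (j : K) ≠ μ := fun h2 => hij (Subtype.ext (h ▸ h2.symm))
    have := Lagrange.eval_basis_of_ne (s := eig S) (v := id) h1 hμ
    simp only [id] at this
    rw [this, mul_zero]
  · have := Lagrange.eval_basis_of_ne (s := eig S) (v := id) (Ne.symm h) hμ
    simp only [id] at this
    rw [this, zero_mul]

lemma s_spr (hS : S.IsSemisimple) (i : eig S) : S * spr S i = (i : K) • spr S i := by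
  classical
  have h1 : S * spr S i - (i : K) • spr S i =
      aeval S ((X - C (i : K)) * Lagrange.basis (eig S) id (i : K)) := by
    rw [map_mul, map_sub, aeval_X, aeval_C, sub_mul, Algebra.smul_def]
    rfl
  rw [← sub_eq_zero, h1]
  refine aeval_eq_zero hS fun μ hμ => ?_
  rw [eval_mul, eval_sub, eval_X, eval_C]
  by_cases h : μ = i
  · rw [h, sub_self, zero_mul]
  · have := Lagrange.eval_basis_of_ne (s := eig S) (v := id) (Ne.symm h) hμ
    simp only [id] at this
    rw [this, mul_zero]

omit [IsAlgClosed K] [FiniteDimensional K V] in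
lemma comm_spr {N : End K V} (hN : Commute N S) (i : eig S) : Commute N (spr S i) := by
  classical
  rw [spr]
  exact Algebra.commute_of_mem_adjoin_of_forall_mem_commute (R := K) (s := {S})
    (aeval_mem_adjoin_singleton K S) (fun b hb => by
      rw [Set.mem_singleton_iff] at hb
      rw [hb]; exact hN)

end proj

/-! ### The Jordan basis -/

section basis

variable [IsAlgClosed K] [FiniteDimensional K V]

/-- A Jordan basis for commuting `S` (semisimple, invertible) and `N` (nilpotent). -/
theorem exists_jordan [CharZero K] {S N : End K V} (hS : S.IsSemisimple)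
    (hS0 : Function.Injective S) (hN : IsNilpotent N) (hSN : Commute N S) :
    ∃ (ι : Type) (_ : Fintype ι) (_ : DecidableEq ι) (e : Basis ι K V) (s : ι → K) (w : ι → ℤ)
      (f : Matrix ι ι K), Dat s w (LinearMap.toMatrix e e N) f ∧ (∀ q, S (e q) = s q • e q) ∧
      (N ≠ 0 → ∃ p q : ι, p ≠ q ∧ s p = s q ∧ w p = w q + 2) := by
  classical
  obtain ⟨k, hk⟩ := hN
  have P : Pool.Agent.W559.Vf.Pj N (fun i : eig S => spr S i) :=
    { su := fun x => by
        have := congrArg (fun F : End K V => F x) (spr_sum hS)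
        simpa only [LinearMap.sum_apply, Module.End.one_apply] using this
      ort := fun i j x hij => by
        rw [← Module.End.mul_apply, spr_mul hS hij, LinearMap.zero_apply]
      co := fun i x => by
        rw [← Module.End.mul_apply, (comm_spr hSN i).eq, Module.End.mul_apply] }
  obtain ⟨β, hβ, l, χ, Y, hl, hY, hYN, hind, hspan⟩ :=
    Pool.Agent.W559.Vf.chains_aux P hk _ ⊤ le_rfl (fun _ _ => trivial) (fun _ _ _ => trivial)
  let e : Basis (Σ b, Fin (l b)) K V := Basis.mk hind hspan.ge
  have he : ∀ p : (Σ b, Fin (l b)), e p = (N ^ (p.2 : ℕ)) (Y p.1) := fun p => by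
    rw [Basis.mk_apply]
  -- chains
  have hchain : ∀ (b : β) (i : ℕ) (hi : i < l b), e ⟨b, i, hi⟩ = (N ^ i) (Y b) :=
    fun b i hi => he ⟨b, i, hi⟩
  have hNe : ∀ p : (Σ b, Fin (l b)), N (e p) = (N ^ ((p.2 : ℕ) + 1)) (Y p.1) := fun p => by
    rw [he, pow_succ', Module.End.mul_apply]
  have hzero : ∀ (b : β) (i : ℕ), l b ≤ i → (N ^ i) (Y b) = 0 := by
    intro b i hi
    obtain ⟨j, rfl⟩ := Nat.exists_eq_add_of_le' hi
    rw [pow_add, Module.End.mul_apply, hYN, map_zero]
  let s : (Σ b, Fin (l b)) → K := fun p => (χ p.1 : K)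
  let w : (Σ b, Fin (l b)) → ℤ := fun p => 2 * ((p.2 : ℕ) : ℤ) - ((l p.1 : ℤ) - 1)
  let f : End K V := e.constr K fun p =>
    (((p.2 : ℕ) : K) * ((l p.1 : K) - ((p.2 : ℕ) : K))) • (N ^ ((p.2 : ℕ) - 1)) (Y p.1)
  have hfe : ∀ p : (Σ b, Fin (l b)), f (e p) =
      (((p.2 : ℕ) : K) * ((l p.1 : K) - ((p.2 : ℕ) : K))) • (N ^ ((p.2 : ℕ) - 1)) (Y p.1) :=
    fun p => Basis.constr_basis _ _ _ _
  have hfc : ∀ (b : β) (i : ℕ), i ≤ l b → f ((N ^ i) (Y b)) =
      ((i : K) * ((l b : K) - (i : K))) • (N ^ (i - 1)) (Y b) := by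
    intro b i hi
    rcases hi.eq_or_lt with h | h
    · rw [h, hzero b _ le_rfl, map_zero, sub_self, mul_zero, zero_smul]
    · rw [← hchain b i h, hfe]
  have hYs : ∀ b, S (Y b) = (χ b : K) • Y b := by
    intro b
    have h1 := hY b
    have h2 := congrArg (fun F : End K V => F (Y b)) (s_spr hS (χ b))
    simp only [Module.End.mul_apply, LinearMap.smul_apply] at h2
    have h3 : spr S (χ b) (Y b) = Y b := h1
    rwa [h3] at h2
  have hSe : ∀ q, S (e q) = s q • e q := by
    intro q
    rw [he, ← Module.End.mul_apply, ← (hSN.pow_left _).eq, Module.End.mul_apply, hYs, map_smul]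
  -- the entries
  have hNent : ∀ p q, LinearMap.toMatrix e e N p q ≠ 0 → s p = s q ∧ w p = w q + 2 := by
    intro p q hpq
    rw [LinearMap.toMatrix_apply, hNe] at hpq
    rcases Nat.lt_or_ge ((q.2 : ℕ) + 1) (l q.1) with h | h
    · rw [← hchain q.1 _ h, Basis.repr_self, Finsupp.single_apply] at hpq
      have hp : (⟨q.1, (q.2 : ℕ) + 1, h⟩ : Σ b, Fin (l b)) = p := by
        by_contra hne
        rw [if_neg hne] at hpq
        exact hpq rfl
      rw [← hp]
      refine ⟨rfl, ?_⟩
      simp only [w]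
      push_cast
      ring
    · rw [hzero _ _ h, map_zero, Finsupp.zero_apply] at hpq
      exact absurd rfl hpq
  have hfent : ∀ p q, LinearMap.toMatrix e e f p q ≠ 0 → s p = s q ∧ w p = w q - 2 := by
    intro p q hpq
    rw [LinearMap.toMatrix_apply, hfe, map_smul, Finsupp.smul_apply, smul_eq_mul] at hpq
    have h0 : (q.2 : ℕ) ≠ 0 := by
      intro h0
      rw [h0] at hpq
      simp at hpq
    have hlt : (q.2 : ℕ) - 1 < l q.1 := by
      have := q.2.2
      omega
    rw [← hchain q.1 _ hlt, Basis.repr_self, Finsupp.single_apply] at hpq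
    have hp : (⟨q.1, (q.2 : ℕ) - 1, hlt⟩ : Σ b, Fin (l b)) = p := by
      by_contra hne
      rw [if_neg hne, mul_zero] at hpq
      exact hpq rfl
    rw [← hp]
    refine ⟨rfl, ?_⟩
    simp only [w]
    omega
  have hcomm : ∀ q, (N * f - f * N) (e q) = (w q : K) • e q := by
    intro q
    have hq := q.2.2
    rw [LinearMap.sub_apply, Module.End.mul_apply, Module.End.mul_apply, hfe, map_smul, hNe,
      hfc q.1 _ (by omega), he, Nat.add_sub_cancel]
    have h1 : ((((q.2 : ℕ) : K) * ((l q.1 : K) - ((q.2 : ℕ) : K))) •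
        N ((N ^ ((q.2 : ℕ) - 1)) (Y q.1))) =
        (((q.2 : ℕ) : K) * ((l q.1 : K) - ((q.2 : ℕ) : K))) • (N ^ (q.2 : ℕ)) (Y q.1) := by
      rcases Nat.eq_zero_or_pos (q.2 : ℕ) with h | h
      · rw [h]; simp
      · congr 1
        rw [← Module.End.mul_apply, ← pow_succ', Nat.sub_add_cancel h]
    rw [h1, ← sub_smul]
    congr 1
    simp only [w]
    push_cast
    ring
  refine ⟨_, inferInstance, inferInstance, e, s, w, LinearMap.toMatrix e e f,
    ⟨?_, hNent, hfent, ?_⟩, hSe, ?_⟩
  · intro p h0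
    have h1 := hSe p
    rw [h0, zero_smul] at h1
    exact e.ne_zero p (hS0 (by rw [h1, map_zero]))
  · rw [← LinearMap.toMatrix_mul, ← LinearMap.toMatrix_mul, ← map_sub]
    ext p q
    rw [LinearMap.toMatrix_apply, hcomm, map_smul, Finsupp.smul_apply, Basis.repr_self,
      Finsupp.single_apply, Matrix.diagonal_apply, smul_eq_mul]
    by_cases h : p = q
    · rw [if_pos h, if_pos h.symm, h, mul_one]
    · rw [if_neg h, if_neg (Ne.symm h), mul_zero]
  · intro hN0
    have : ∃ q, N (e q) ≠ 0 := by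
      by_contra hcon
      push Not at hcon
      exact hN0 (e.ext fun q => by rw [hcon q, LinearMap.zero_apply])
    obtain ⟨q, hq⟩ := this
    rw [hNe] at hq
    have hlt : (q.2 : ℕ) + 1 < l q.1 := by
      by_contra h
      exact hq (hzero _ _ (by omega))
    refine ⟨⟨q.1, (q.2 : ℕ) + 1, hlt⟩, q, ?_, rfl, ?_⟩
    · intro h
      have h1 : ∀ (p q : Σ b, Fin (l b)), p = q → (p.2 : ℕ) = q.2 := by
        rintro p _ rfl; rfl
      have h2 := h1 _ _ h
      simp only at h2
      omega
    · simp only [w]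
      push_cast
      ring

end basis

end Pool.Agent.H17Ss
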