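import Pool.Agent.H17Ss.Fin

/-!
# The share of the classes fixed by the Frobenius
-/

set_option autoImplicit false

open Module TensorProduct

namespace Pool.Agent.H17Ss

variable {K : Type*} [Field K] {V : Type*} [AddCommGroup V] [Module K V]

/-- `F` acts semisimply -/
def Ss (F : V ≃ₗ[K] V) : Prop := Module.End.IsSemisimple (F : End K V)

/-- fixed classes -/
noncomputable def tC (F : V ≃ₗ[K] V) (n : ℕ) : Submodule K (End K (⨂[K] _ : Fin n, V)) :=
  (frobEnd F n).eigenspace 1

/-- the dimension of the space of fixed classes -/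
noncomputable def tD (F : V ≃ₗ[K] V) (n : ℕ) : ℕ := finrank K (tC F n)

/-- the multiplicity of the eigenvalue `1` -/
noncomputable def pO (F : V ≃ₗ[K] V) (n : ℕ) : ℕ :=
  finrank K ((frobEnd F n).maxGenEigenspace 1)

/-- `√(b / 2 n) + (n + 1) ^ b (1 - 1 / b ^ 2) ^ (2 n)` -/
noncomputable def bnd (b n : ℕ) : ℝ :=
  √((b : ℝ) / (2 * n)) + ((n : ℝ) + 1) ^ b * (1 - 1 / (b : ℝ) ^ 2) ^ (2 * n)

section aux

variable [IsAlgClosed K] [CharZero K] [FiniteDimensional K V]

omit [IsAlgClosed K] [CharZero K] in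
lemma finrank_le (F : V ≃ₗ[K] V) (n : ℕ) : tD F n ≤ pO F n :=
  Submodule.finrank_mono (by
    rw [tC, Module.End.eigenspace]
    exact (Module.End.genEigenspace _ _).monotone le_top)

lemma eq_of_semisimple (F : V ≃ₗ[K] V) (hF : Ss F) (n : ℕ) :
    tD F n = pO F n := by
  classical
  have hle : (frobEnd F n).maxGenEigenspace 1 ≤ tC F n := by
    obtain ⟨ι, _, _, e, s, w, f, -, he, -⟩ := exists_jordan hF F.injective
      (N := 0) (IsNilpotent.zero) (Commute.zero_left _)
    have hdiag : LinearMap.toMatrix e e (F : End K V) = Matrix.diagonal s := by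
      ext p q
      rw [LinearMap.toMatrix_apply, he, map_smul, Finsupp.smul_apply, Basis.repr_self,
        Finsupp.single_apply, Matrix.diagonal_apply, smul_eq_mul]
      by_cases h : p = q
      · rw [if_pos h, if_pos h.symm, h, mul_one]
      · rw [if_neg h, if_neg (Ne.symm h), mul_zero]
    have hG : (tens fun _ : Fin n => LinearMap.toMatrix e e (F : End K V)) =
        Matrix.diagonal (sp s) := by
      ext a b
      rw [tens_apply, hdiag]
      by_cases h : a = b
      · subst h
        rw [Matrix.diagonal_apply_eq]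
        exact Finset.prod_congr rfl fun i _ => Matrix.diagonal_apply_eq _ _
      · obtain ⟨i, hi⟩ := Function.ne_iff.1 h
        rw [Matrix.diagonal_apply_ne _ h]
        exact Finset.prod_eq_zero (Finset.mem_univ i) (Matrix.diagonal_apply_ne _ hi)
    intro X hX
    rw [tC, mem_eigenspace_iff']
    obtain ⟨k, hk⟩ := (mem_gen_iff F n X).1 hX
    have h1 := congrArg (LinearMap.toMatrix (tb e n) (tb e n)) hk
    rw [toMatrix_adE_pow, hG, map_zero] at h1
    apply (LinearMap.toMatrix (tb e n) (tb e n)).injective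
    rw [toMatrix_adE, hG, map_zero]
    set M := LinearMap.toMatrix (tb e n) (tb e n) X
    have h2 : ∀ (M : Matrix (Fin n → ι) (Fin n → ι) K) (a b : Fin n → ι),
        adm (Matrix.diagonal (sp s)) M a b = (sp s a - sp s b) * M a b := by
      intro M a b
      rw [adm_apply, Matrix.sub_apply, Matrix.diagonal_mul, Matrix.mul_diagonal]
      ring
    have h3 : ∀ (k : ℕ) (a b : Fin n → ι),
        ((adm (Matrix.diagonal (sp s))) ^ k) M a b = (sp s a - sp s b) ^ k * M a b := by
      intro k
      induction k with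
      | zero => intro a b; simp
      | succ k ih =>
        intro a b
        rw [pow_succ', Module.End.mul_apply, h2, ih]
        ring
    ext a b
    rw [h2, Matrix.zero_apply]
    have h4 := h3 k a b
    rw [h1, Matrix.zero_apply] at h4
    rcases mul_eq_zero.1 h4.symm with h5 | h5
    · rw [eq_zero_of_pow_eq_zero h5, zero_mul]
    · rw [h5, mul_zero]
  exact le_antisymm (finrank_le F n) (Submodule.finrank_mono hle)

lemma two_le (F : V ≃ₗ[K] V) (hF : ¬ Ss F) : 2 ≤ finrank K V := by
  obtain ⟨S, N, hS, hS0, hN, hNS, hFS, hN0⟩ := exists_decomp F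
  have hN1 : N ≠ 0 := fun h => hF (by rw [Ss, hN0 h]; exact hS)
  obtain ⟨ι, _, _, e, s, w, f, -, -, hex⟩ := exists_jordan hS hS0 hN hNS
  obtain ⟨p, q, hpq, -, -⟩ := hex hN1
  rw [finrank_eq_card_basis e]
  exact Fintype.one_lt_card_iff.2 ⟨p, q, hpq⟩

lemma share_le (F : V ≃ₗ[K] V) (hF : ¬ Ss F) {n : ℕ} (hn : 1 ≤ n) :
    (tD F n : ℝ) ≤ bnd (finrank K V) n * (pO F n : ℝ) := by
  unfold bnd
  obtain ⟨S, N, hS, hS0, hN, hNS, hFS, hN0⟩ := exists_decomp F
  have hN1 : N ≠ 0 := fun h => hF (by rw [Ss, hN0 h]; exact hS)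
  obtain ⟨ι, _, _, e, s, w, f, hd, he, hex⟩ := exists_jordan hS hS0 hN hNS
  obtain ⟨p, q, hpq, hs, hw⟩ := hex hN1
  have hdiag : LinearMap.toMatrix e e S = Matrix.diagonal s := by
    ext p q
    rw [LinearMap.toMatrix_apply, he, map_smul, Finsupp.smul_apply, Basis.repr_self,
      Finsupp.single_apply, Matrix.diagonal_apply, smul_eq_mul]
    by_cases h : p = q
    · rw [if_pos h, if_pos h.symm, h, mul_one]
    · rw [if_neg h, if_neg (Ne.symm h), mul_zero]
  have hM : LinearMap.toMatrix e e (F : End K V) =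
      Matrix.diagonal s * (1 + LinearMap.toMatrix e e N) := by
    rw [hFS, LinearMap.toMatrix_mul, map_add, hdiag, LinearMap.toMatrix_one]
  have h1 := hd.compare (n := n) hn hpq hs hw
  have h2 := finrank_eigenspace_le e F n
  have h3 := finrank_gen_le e F n
  rw [hM] at h2 h3
  rw [← finrank_eq_card_basis e] at h1
  have hb : (1 : ℝ) ≤ (finrank K V : ℝ) := by exact_mod_cast (two_le F hF).trans' one_le_two
  have h4 : 0 ≤ 1 - 1 / (finrank K V : ℝ) ^ 2 := by
    rw [sub_nonneg, div_le_one (by positivity)]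
    nlinarith
  calc (tD F n : ℝ)
      ≤ (finrank K (LinearMap.ker (adm (big n s (LinearMap.toMatrix e e N)))) : ℝ) := by
        exact_mod_cast h2
    _ ≤ _ := h1
    _ ≤ _ := by
        refine mul_le_mul_of_nonneg_left (by exact_mod_cast h3) ?_
        positivity

end aux


end Pool.Agent.H17Ss
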