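import Pool.Agent.H17Ss.Blk

/-!
# Matrices indexed by words
-/

set_option autoImplicit false

namespace Pool.Agent.H17Ss

open Module Finset Matrix

/-! ### Tensor products of matrices -/

section tens

variable {K : Type*} [Field K] {ι : Type*} [Fintype ι] [DecidableEq ι] {n : ℕ}

/-- the tensor product of matrices -/
def tens (f : Fin n → Matrix ι ι K) : Matrix (Fin n → ι) (Fin n → ι) K :=
  Matrix.of fun a b => ∏ i, f i (a i) (b i)

omit [Fintype ι] [DecidableEq ι] in
lemma tens_apply (f : Fin n → Matrix ι ι K) (a b : Fin n → ι) :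
    tens f a b = ∏ i, f i (a i) (b i) := rfl

omit [DecidableEq ι] in
lemma tens_mul (f g : Fin n → Matrix ι ι K) : tens f * tens g = tens (fun i => f i * g i) := by
  classical
  ext a b
  rw [Matrix.mul_apply, tens_apply]
  simp only [Matrix.mul_apply, tens_apply]
  rw [Finset.prod_univ_sum, Fintype.piFinset_univ]
  refine Finset.sum_congr rfl fun c _ => ?_
  rw [Finset.prod_mul_distrib]

omit [Fintype ι] in
lemma tens_one : tens (fun _ : Fin n => (1 : Matrix ι ι K)) = 1 := by
  ext a b
  rw [tens_apply]
  by_cases h : a = b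
  · subst h
    simp
  · obtain ⟨i, hi⟩ := Function.ne_iff.1 h
    rw [Matrix.one_apply_ne h]
    exact Finset.prod_eq_zero (Finset.mem_univ i) (Matrix.one_apply_ne hi)

/-- a matrix at one place -/
def loc (i : Fin n) (x : Matrix ι ι K) : Matrix (Fin n → ι) (Fin n → ι) K :=
  tens (Function.update (fun _ => 1) i x)

lemma loc_mul (i : Fin n) (x y : Matrix ι ι K) : loc i x * loc i y = loc i (x * y) := by
  rw [loc, loc, loc, tens_mul]
  congr 1
  funext j
  by_cases h : j = i
  · subst h; simp
  · simp [h]

lemma loc_comm {i j : Fin n} (hij : i ≠ j) (x y : Matrix ι ι K) :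
    loc i x * loc j y = loc j y * loc i x := by
  rw [loc, loc, tens_mul, tens_mul]
  congr 1
  funext k
  by_cases h : k = i
  · subst h; simp [hij]
  · by_cases h' : k = j
    · subst h'; simp [h]
    · simp [h, h']

omit [Fintype ι] in
lemma loc_apply (i : Fin n) (x : Matrix ι ι K) (a b : Fin n → ι) :
    loc i x a b = x (a i) (b i) * ∏ j ∈ univ.erase i, (1 : Matrix ι ι K) (a j) (b j) := by
  rw [loc, tens_apply, ← Finset.mul_prod_erase univ _ (Finset.mem_univ i)]
  rw [Function.update_self]
  congr 1
  refine Finset.prod_congr rfl fun j hj => ?_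
  rw [Function.update_of_ne (Finset.ne_of_mem_erase hj)]

omit [Fintype ι] in
lemma loc_sub (i : Fin n) (x y : Matrix ι ι K) : loc i (x - y) = loc i x - loc i y := by
  ext a b
  rw [Matrix.sub_apply, loc_apply, loc_apply, loc_apply, Matrix.sub_apply, sub_mul]

omit [Fintype ι] in
lemma loc_smul (i : Fin n) (c : K) (x : Matrix ι ι K) : loc i (c • x) = c • loc i x := by
  ext a b
  rw [Matrix.smul_apply, loc_apply, loc_apply, Matrix.smul_apply, smul_eq_mul, smul_eq_mul,
    mul_assoc]

/-- the derivation belonging to a matrix -/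
def der (x : Matrix ι ι K) : Matrix (Fin n → ι) (Fin n → ι) K := ∑ i, loc i x

lemma der_comm (x y : Matrix ι ι K) :
    (der x * der y - der y * der x : Matrix (Fin n → ι) (Fin n → ι) K) = der (x * y - y * x) := by
  have h1 : (der y * der x : Matrix (Fin n → ι) (Fin n → ι) K) =
      ∑ i, ∑ j, loc j y * loc i x := by
    rw [der, der, Finset.sum_mul_sum, Finset.sum_comm]
  have h2 : (der x * der y : Matrix (Fin n → ι) (Fin n → ι) K) =
      ∑ i, ∑ j, loc i x * loc j y := by
    rw [der, der, Finset.sum_mul_sum]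
  rw [h1, h2, ← Finset.sum_sub_distrib, der]
  refine Finset.sum_congr rfl fun i _ => ?_
  rw [← Finset.sum_sub_distrib, Finset.sum_eq_single i]
  · rw [loc_mul, loc_mul, loc_sub]
  · intro j _ hj
    rw [loc_comm hj.symm, sub_self]
  · intro h; exact absurd (Finset.mem_univ i) h

omit [Fintype ι] in
lemma der_smul (c : K) (x : Matrix ι ι K) :
    (der (c • x) : Matrix (Fin n → ι) (Fin n → ι) K) = c • der x := by
  rw [der, der, Finset.smul_sum]
  exact Finset.sum_congr rfl fun i _ => loc_smul i c x

omit [Fintype ι] in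
lemma der_apply (x : Matrix ι ι K) (a b : Fin n → ι) :
    der x a b = ∑ i, x (a i) (b i) * ∏ j ∈ univ.erase i, (1 : Matrix ι ι K) (a j) (b j) := by
  rw [der, Matrix.sum_apply]
  exact Finset.sum_congr rfl fun i _ => loc_apply i x a b

omit [Fintype ι] in
lemma prod_one_ne {a b : Fin n → ι} {s : Finset (Fin n)}
    (h : ∏ j ∈ s, (1 : Matrix ι ι K) (a j) (b j) ≠ 0) {j : Fin n} (hj : j ∈ s) : a j = b j := by
  by_contra hne
  exact h (Finset.prod_eq_zero hj (Matrix.one_apply_ne hne))

omit [Fintype ι] in
lemma prod_one_eq {a b : Fin n → ι} {s : Finset (Fin n)} (h : ∀ j ∈ s, a j = b j) :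
    ∏ j ∈ s, (1 : Matrix ι ι K) (a j) (b j) = 1 :=
  Finset.prod_eq_one fun j hj => by rw [h j hj, Matrix.one_apply_eq]

end tens

/-! ### Commutators -/

section ad

variable {K : Type*} [Field K] {C : Type*} [Fintype C] [DecidableEq C]

/-- the commutator with a matrix -/
def adm (M : Matrix C C K) : End K (Matrix C C K) where
  toFun X := M * X - X * M
  map_add' X Y := by rw [mul_add, add_mul]; abel
  map_smul' c X := by rw [mul_smul_comm, smul_mul_assoc, RingHom.id_apply, smul_sub]

lemma adm_apply (M X : Matrix C C K) : adm M X = M * X - X * M := rfl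

lemma adm_comm (M M' : Matrix C C K) : adm M * adm M' - adm M' * adm M = adm (M * M' - M' * M) := by
  refine LinearMap.ext fun X => ?_
  simp only [LinearMap.sub_apply, Module.End.mul_apply, adm_apply]
  noncomm_ring

lemma adm_smul (c : K) (M : Matrix C C K) : adm (c • M) = c • adm M := by
  refine LinearMap.ext fun X => ?_
  simp only [LinearMap.smul_apply, adm_apply, smul_mul_assoc, mul_smul_comm, smul_sub]

/-- one entry -/
def ent (c : C × C) : End K (Matrix C C K) where
  toFun X := Matrix.single c.1 c.2 (X c.1 c.2)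
  map_add' X Y := by rw [Matrix.add_apply, Matrix.single_add]
  map_smul' r X := by
    rw [Matrix.smul_apply, RingHom.id_apply, ← Matrix.smul_single]

omit [Fintype C] in
lemma ent_apply (c : C × C) (X : Matrix C C K) :
    ent c X = Matrix.single c.1 c.2 (X c.1 c.2) := rfl

lemma ent_adm_ent (c d : C × C) (M X : Matrix C C K) :
    ent c (adm M (ent d X)) = Matrix.single c.1 c.2
      (((if d.2 = c.2 then M c.1 d.1 else 0) - (if d.1 = c.1 then M d.2 c.2 else 0)) *
        X d.1 d.2) := by
  rw [ent_apply, ent_apply, adm_apply, Matrix.sub_apply]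
  congr 1
  have h1 : (M * Matrix.single d.1 d.2 (X d.1 d.2)) c.1 c.2 =
      (if d.2 = c.2 then M c.1 d.1 else 0) * X d.1 d.2 := by
    rw [Matrix.mul_apply, Finset.sum_eq_single d.1]
    · rw [Matrix.single_apply]
      by_cases h : d.2 = c.2 <;> simp [h]
    · intro x _ hx
      rw [Matrix.single_apply, if_neg fun h => hx h.1.symm, mul_zero]
    · intro h; exact absurd (Finset.mem_univ _) h
  have h2 : (Matrix.single d.1 d.2 (X d.1 d.2) * M) c.1 c.2 =
      (if d.1 = c.1 then M d.2 c.2 else 0) * X d.1 d.2 := by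
    rw [Matrix.mul_apply, Finset.sum_eq_single d.2]
    · rw [Matrix.single_apply]
      by_cases h : d.1 = c.1 <;> simp [h, mul_comm]
    · intro x _ hx
      rw [Matrix.single_apply, if_neg fun h => hx h.2.symm, zero_mul]
    · intro h; exact absurd (Finset.mem_univ _) h
  rw [h1, h2, sub_mul]

lemma sum_ent : ∑ c : C × C, (ent c : End K (Matrix C C K)) = 1 := by
  refine LinearMap.ext fun X => ?_
  rw [LinearMap.sum_apply]
  simp only [ent_apply, Module.End.one_apply]
  rw [Fintype.sum_prod_type]
  exact (Matrix.matrix_eq_sum_single X).symm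

omit [Fintype C] in
lemma ent_mul (c d : C × C) :
    (ent c * ent d : End K (Matrix C C K)) = if c = d then ent c else 0 := by
  refine LinearMap.ext fun X => ?_
  rw [Module.End.mul_apply, ent_apply, ent_apply, Matrix.single_apply]
  by_cases h : c = d
  · subst h; simp [ent_apply]
  · rw [if_neg h]
    rw [if_neg, Matrix.single_zero, LinearMap.zero_apply]
    rintro ⟨h1, h2⟩
    exact h (Prod.ext h1.symm h2.symm)

end ad

/-! ### Triangular matrices -/

section tri

variable {K : Type*} [Field K] {C : Type*} [Fintype C] [DecidableEq C]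

/-- the matrices with entries only between indices of the same class -/
def Mn (sp : C → K) : Submodule K (Matrix C C K) where
  carrier := {X | ∀ a b, sp a ≠ sp b → X a b = 0}
  add_mem' := fun {X Y} hX hY a b h => by rw [Matrix.add_apply, hX a b h, hY a b h, add_zero]
  zero_mem' := fun _ _ _ => rfl
  smul_mem' := fun c X hX a b h => by rw [Matrix.smul_apply, hX a b h, smul_zero]

omit [Fintype C] [DecidableEq C] in
lemma mem_Mn {sp : C → K} {X : Matrix C C K} : X ∈ Mn sp ↔ ∀ a b, sp a ≠ sp b → X a b = 0 :=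
  Iff.rfl

/-- triangular with diagonal `sp` and entries only between indices of the same class -/
structure Tri (G : Matrix C C K) (sp : C → K) (ww : C → ℤ) : Prop where
  diag : ∀ a, G a a = sp a
  off : ∀ a b, a ≠ b → G a b ≠ 0 → sp a = sp b ∧ ww b < ww a

variable {G : Matrix C C K} {sp : C → K} {ww : C → ℤ}

lemma Tri.adm_apply (h : Tri G sp ww) (X : Matrix C C K) (a b : C) :
    adm G X a b = (sp a - sp b) * X a b + ∑ c ∈ univ.erase a, G a c * X c b -
      ∑ c ∈ univ.erase b, X a c * G c b := by
  rw [H17Ss.adm_apply, Matrix.sub_apply, Matrix.mul_apply, Matrix.mul_apply,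
    ← Finset.add_sum_erase univ (fun c => G a c * X c b) (Finset.mem_univ a),
    ← Finset.add_sum_erase univ (fun c => X a c * G c b) (Finset.mem_univ b), h.diag, h.diag]
  ring

/-- what commutes with `G` has entries only between indices of the same class -/
lemma Tri.mem_of_comm (h : Tri G sp ww) {X : Matrix C C K} (hX : adm G X = 0) : X ∈ Mn sp := by
  by_contra hcon
  let bad : Finset (C × C) := by
    classical exact {c | sp c.1 ≠ sp c.2 ∧ X c.1 c.2 ≠ 0}
  have hbad : ∀ c, c ∈ bad ↔ sp c.1 ≠ sp c.2 ∧ X c.1 c.2 ≠ 0 := by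
    intro c
    simp [bad]
  have hne : bad.Nonempty := by
    rw [mem_Mn] at hcon
    push Not at hcon
    obtain ⟨a, b, h1, h2⟩ := hcon
    exact ⟨(a, b), (hbad _).2 ⟨h1, h2⟩⟩
  obtain ⟨⟨a, b⟩, hc, hmin⟩ := bad.exists_min_image (fun c => ww c.1 - ww c.2) hne
  obtain ⟨h1, h2⟩ := (hbad _).1 hc
  simp only at h1 h2 hmin
  have h3 := h.adm_apply X a b
  rw [hX, Matrix.zero_apply] at h3
  have h4 : ∑ c ∈ univ.erase a, G a c * X c b = 0 := by
    refine Finset.sum_eq_zero fun c hc => ?_
    by_contra h5
    have h6 := h.off a c (Finset.ne_of_mem_erase hc).symm (left_ne_zero_of_mul h5)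
    have h7 := hmin (c, b) ((hbad _).2 ⟨by rw [← h6.1]; exact h1, right_ne_zero_of_mul h5⟩)
    simp only at h7
    omega
  have h5 : ∑ c ∈ univ.erase b, X a c * G c b = 0 := by
    refine Finset.sum_eq_zero fun c hc => ?_
    by_contra h5
    have h6 := h.off c b (Finset.ne_of_mem_erase hc) (right_ne_zero_of_mul h5)
    have h7 := hmin (a, c) ((hbad _).2 ⟨by rw [h6.1]; exact h1, left_ne_zero_of_mul h5⟩)
    simp only at h7
    omega
  rw [h4, h5, add_zero, sub_zero] at h3
  rcases mul_eq_zero.1 h3.symm with h6 | h6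
  · exact h1 (sub_eq_zero.1 h6)
  · exact h2 h6

/-- the commutator with `G` is nilpotent on these matrices -/
lemma Tri.nilp (h : Tri G sp ww) {X : Matrix C C K} (hX : X ∈ Mn sp) :
    ∃ k : ℕ, ((adm G) ^ k) X = 0 := by
  rcases isEmpty_or_nonempty C with hC | hC
  · exact ⟨0, by ext a; exact hC.elim a⟩
  obtain ⟨a₀, -, ha₀⟩ := (univ : Finset C).exists_min_image ww ⟨Classical.arbitrary C, mem_univ _⟩
  obtain ⟨a₁, -, ha₁⟩ := (univ : Finset C).exists_max_image ww ⟨Classical.arbitrary C, mem_univ _⟩
  have key : ∀ k : ℕ, ((adm G) ^ k) X ∈ Mn sp ∧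
      ∀ a b, ww a - ww b < ww a₀ - ww a₁ + k → ((adm G) ^ k) X a b = 0 := by
    intro k
    induction k with
    | zero =>
      refine ⟨by simpa using hX, fun a b hab => ?_⟩
      have h1 := ha₀ a (mem_univ _)
      have h2 := ha₁ b (mem_univ _)
      push_cast at hab
      omega
    | succ k ih =>
      obtain ⟨ih1, ih2⟩ := ih
      rw [pow_succ', Module.End.mul_apply]
      set Y := ((adm G) ^ k) X with hY
      refine ⟨?_, ?_⟩
      · intro a b hab
        rw [h.adm_apply, ih1 a b hab, mul_zero, zero_add, sub_eq_zero]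
        rw [Finset.sum_eq_zero, Finset.sum_eq_zero]
        · intro c hc
          by_contra h5
          have h6 := h.off c b (Finset.ne_of_mem_erase hc) (right_ne_zero_of_mul h5)
          exact left_ne_zero_of_mul h5 (ih1 a c (by rw [h6.1]; exact hab))
        · intro c hc
          by_contra h5
          have h6 := h.off a c (Finset.ne_of_mem_erase hc).symm (left_ne_zero_of_mul h5)
          exact right_ne_zero_of_mul h5 (ih1 c b (by rw [← h6.1]; exact hab))
      · intro a b hab
        push_cast at hab
        have h1 : (sp a - sp b) * Y a b = 0 := by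
          by_cases h2 : sp a = sp b
          · rw [h2, sub_self, zero_mul]
          · rw [ih1 a b h2, mul_zero]
        rw [h.adm_apply, h1, zero_add, sub_eq_zero, Finset.sum_eq_zero, Finset.sum_eq_zero]
        · intro c hc
          by_contra h5
          have h6 := h.off c b (Finset.ne_of_mem_erase hc) (right_ne_zero_of_mul h5)
          exact left_ne_zero_of_mul h5 (ih2 a c (by omega))
        · intro c hc
          by_contra h5
          have h6 := h.off a c (Finset.ne_of_mem_erase hc).symm (left_ne_zero_of_mul h5)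
          exact right_ne_zero_of_mul h5 (ih2 c b (by omega))
  refine ⟨(2 * (ww a₁ - ww a₀) + 1).toNat, ?_⟩
  ext a b
  have h1 := ha₁ a (mem_univ _)
  have h2 := ha₀ b (mem_univ _)
  have h3 := ha₁ a₀ (mem_univ _)
  exact (key _).2 a b (by omega)

end tri

end Pool.Agent.H17Ss
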