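import Mathlib

/-!
# The kernel of an operator whose leading part belongs to a representation of `sl(2)`
-/

set_option autoImplicit false

namespace Pool.Agent.H17Ss

open Module Finset

variable {K : Type*} [Field K] [CharZero K] {W : Type*} [AddCommGroup W] [Module K W]

omit [CharZero K] in
/-- If `(H - μ) x ∈ Y`, `Y` is stable under `H`, `(H - w) ^ k x = 0` and `μ ≠ w` then `x ∈ Y`. -/
lemma mem_of_sub {H : End K W} {Y : Submodule K W} (hY : ∀ y ∈ Y, H y ∈ Y) {w μ : K}
    (hne : μ ≠ w) {x : W} (hx : H x - μ • x ∈ Y) :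
    ∀ k : ℕ, ((H - algebraMap K (End K W) w) ^ k) x ∈ Y → x ∈ Y := by
  have key : ∀ k : ℕ, ((H - algebraMap K (End K W) w) ^ k) x - (μ - w) ^ k • x ∈ Y := by
    intro k
    induction k with
    | zero => simp
    | succ k ih =>
      have h1 : (H - algebraMap K (End K W) w)
          (((H - algebraMap K (End K W) w) ^ k) x - (μ - w) ^ k • x) ∈ Y := by
        rw [LinearMap.sub_apply, Module.algebraMap_end_apply]
        exact Y.sub_mem (hY _ ih) (Y.smul_mem _ ih)
      have h3 : (H - algebraMap K (End K W) w) x = H x - w • x := by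
        rw [LinearMap.sub_apply, Module.algebraMap_end_apply]
      have h2 : ((H - algebraMap K (End K W) w) ^ (k + 1)) x - (μ - w) ^ (k + 1) • x =
          (H - algebraMap K (End K W) w)
            (((H - algebraMap K (End K W) w) ^ k) x - (μ - w) ^ k • x) +
          (μ - w) ^ k • (H x - μ • x) := by
        rw [pow_succ' (H - _), Module.End.mul_apply, map_sub, map_smul, h3, pow_succ]
        module
      rw [h2]
      exact Y.add_mem h1 (Y.smul_mem _ hx)
  intro k hk
  have h1 := Y.sub_mem hk (key k)
  rw [sub_sub_cancel] at h1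
  have h2 : (μ - w) ^ k ≠ 0 := pow_ne_zero _ (sub_ne_zero.2 hne)
  have h3 := Y.smul_mem ((μ - w) ^ k)⁻¹ h1
  rwa [smul_smul, inv_mul_cancel₀ h2, one_smul] at h3

/-- A grading by idempotents and an `sl(2)`-triple which is compatible with it. -/
structure Grad (π : ℤ → End K W) (S : Finset ℤ) (N f H : End K W) : Prop where
  sum : ∑ w ∈ S, π w = 1
  idem : ∀ w, π w * π w = π w
  orth : ∀ w u, w ≠ u → π w * π u = 0
  supp : ∀ w, w ∉ S → π w = 0
  nf : N * f - f * N = H
  hn : H * N - N * H = 2 • N
  hf : H * f - f * H = -(2 • f)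
  nπ : ∀ w, N * π w = π (w + 2) * N
  fπ : ∀ w, f * π w = π (w - 2) * f
  hπ : ∀ w, H * π w = π w * H
  nil : ∃ k : ℕ, ∀ w : ℤ, (H - algebraMap K (End K W) (w : K)) ^ k * π w = 0

namespace Grad

variable {π : ℤ → End K W} {S : Finset ℤ} {N f H : End K W}

omit [CharZero K] in
lemma nf_apply (h : Grad π S N f H) (v : W) : N (f v) = f (N v) + H v := by
  have := congrArg (fun F : End K W => F v) h.nf
  simp only [LinearMap.sub_apply, Module.End.mul_apply] at this
  rw [← this]; abel

omit [CharZero K] in
lemma hf_apply (h : Grad π S N f H) (v : W) : H (f v) = f (H v) - (2 : K) • f v := by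
  have := congrArg (fun F : End K W => F v) h.hf
  simp only [LinearMap.sub_apply, Module.End.mul_apply, LinearMap.neg_apply,
    LinearMap.smul_apply] at this
  rw [sub_eq_iff_eq_add, two_smul] at this
  rw [this, two_smul]; abel

omit [CharZero K] in
lemma hn_apply (h : Grad π S N f H) (v : W) : H (N v) = N (H v) + (2 : K) • N v := by
  have := congrArg (fun F : End K W => F v) h.hn
  simp only [LinearMap.sub_apply, Module.End.mul_apply, LinearMap.smul_apply] at this
  rw [sub_eq_iff_eq_add, two_smul] at this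
  rw [this, two_smul]; abel

omit [CharZero K] in
lemma hf_pow (h : Grad π S N f H) (j : ℕ) (v : W) :
    H ((f ^ j) v) = (f ^ j) (H v) - (2 * j : K) • (f ^ j) v := by
  induction j generalizing v with
  | zero => simp
  | succ j ih =>
    rw [pow_succ, Module.End.mul_apply, Module.End.mul_apply, ih, h.hf_apply, map_sub, map_smul]
    push_cast
    module

omit [CharZero K] in
/-- `N f ^ (j + 1) = f ^ (j + 1) N + (j + 1) f ^ j (H - j)`. -/
lemma nf_pow (h : Grad π S N f H) (j : ℕ) (v : W) :
    N ((f ^ (j + 1)) v) = (f ^ (j + 1)) (N v) + (j + 1 : K) • (f ^ j) (H v - (j : K) • v) := by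
  induction j with
  | zero => simp [h.nf_apply]
  | succ j ih =>
    rw [pow_succ' f (j + 1), Module.End.mul_apply, h.nf_apply, ih, map_add, map_smul,
      Module.End.mul_apply, h.hf_pow, pow_succ' f j]
    simp only [Module.End.mul_apply, map_sub, map_smul]
    push_cast
    module

/-- The part of weight `w`. -/
def part (π : ℤ → End K W) (w : ℤ) : Submodule K W := LinearMap.range (π w)

omit [CharZero K] in
lemma mem_part (h : Grad π S N f H) {w : ℤ} {x : W} : x ∈ part π w ↔ π w x = x := by
  constructor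
  · rintro ⟨y, rfl⟩
    rw [← Module.End.mul_apply, h.idem]
  · exact fun hx => ⟨x, hx⟩

omit [CharZero K] in
lemma h_part (h : Grad π S N f H) {w : ℤ} {x : W} (hx : x ∈ part π w) : H x ∈ part π w := by
  rw [h.mem_part] at hx ⊢
  rw [← Module.End.mul_apply, ← h.hπ, Module.End.mul_apply, hx]

omit [CharZero K] in
lemma n_part (h : Grad π S N f H) {w : ℤ} {x : W} (hx : x ∈ part π w) :
    N x ∈ part π (w + 2) := by
  rw [h.mem_part] at hx ⊢
  rw [← Module.End.mul_apply, ← h.nπ, Module.End.mul_apply, hx]

omit [CharZero K] in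
lemma f_part (h : Grad π S N f H) {w : ℤ} {x : W} (hx : x ∈ part π w) :
    f x ∈ part π (w - 2) := by
  rw [h.mem_part] at hx ⊢
  rw [← Module.End.mul_apply, ← h.fπ, Module.End.mul_apply, hx]

omit [CharZero K] in
lemma f_pow_part (h : Grad π S N f H) {w : ℤ} {x : W} (hx : x ∈ part π w) (j : ℕ) :
    (f ^ j) x ∈ part π (w - 2 * j) := by
  induction j with
  | zero => simpa using hx
  | succ j ih =>
    rw [pow_succ', Module.End.mul_apply]
    have := h.f_part ih
    rwa [show w - 2 * (j : ℤ) - 2 = w - 2 * ((j + 1 : ℕ) : ℤ) by push_cast; ring] at this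

omit [CharZero K] in
lemma n_pow_part (h : Grad π S N f H) {w : ℤ} {x : W} (hx : x ∈ part π w) (j : ℕ) :
    (N ^ j) x ∈ part π (w + 2 * j) := by
  induction j with
  | zero => simpa using hx
  | succ j ih =>
    rw [pow_succ', Module.End.mul_apply]
    have := h.n_part ih
    rwa [show w + 2 * (j : ℤ) + 2 = w + 2 * ((j + 1 : ℕ) : ℤ) by push_cast; ring] at this

omit [CharZero K] in
lemma part_bot (h : Grad π S N f H) {w : ℤ} (hw : w ∉ S) : part π w = ⊥ := by
  rw [part, h.supp w hw, LinearMap.range_zero]

omit [CharZero K] in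
/-- Very low weights do not occur. -/
lemma exists_low (h : Grad π S N f H) : ∃ m : ℤ, ∀ w < m, part π w = ⊥ := by
  rcases S.eq_empty_or_nonempty with hS | hS
  · exact ⟨0, fun w _ => h.part_bot (by simp [hS])⟩
  · refine ⟨S.min' hS, fun w hw => h.part_bot fun hwS => ?_⟩
    exact absurd (S.min'_le w hwS) (not_le.2 hw)

omit [CharZero K] in
lemma exists_high (h : Grad π S N f H) : ∃ m : ℤ, ∀ w, m < w → part π w = ⊥ := by
  rcases S.eq_empty_or_nonempty with hS | hS
  · exact ⟨0, fun w _ => h.part_bot (by simp [hS])⟩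
  · refine ⟨S.max' hS, fun w hw => h.part_bot fun hwS => ?_⟩
    exact absurd (S.le_max' w hwS) (not_le.2 hw)

/-- `N` is injective on the parts of negative weight. -/
lemma inj_neg (h : Grad π S N f H) {w : ℤ} (hw : w < 0) {x : W} (hx : x ∈ part π w)
    (h0 : N x = 0) : x = 0 := by
  obtain ⟨k, hk⟩ := h.nil
  let Z : Submodule K W := LinearMap.ker N ⊓ part π w
  have hZ : ∀ y ∈ Z, H y ∈ Z := by
    rintro y ⟨hy1, hy2⟩
    rw [SetLike.mem_coe, LinearMap.mem_ker] at hy1
    refine ⟨?_, h.h_part hy2⟩
    rw [SetLike.mem_coe, LinearMap.mem_ker]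
    have := h.hn_apply y
    rw [hy1, map_zero, smul_zero, add_zero] at this
    exact this.symm
  have hnil : ∀ y ∈ part π w, ((H - algebraMap K (End K W) (w : K)) ^ k) y = 0 := by
    intro y hy
    rw [h.mem_part] at hy
    rw [← hy, ← Module.End.mul_apply, hk, LinearMap.zero_apply]
  have key : ∀ j : ℕ, ∀ y ∈ Z, (f ^ j) y = 0 → y = 0 := by
    intro j
    induction j with
    | zero => intro y _ hy; simpa using hy
    | succ j ih =>
      intro y hy h1
      have hy1 : N y = 0 := hy.1
      have h2 := h.nf_pow j y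
      rw [h1, map_zero, hy1, map_zero, zero_add] at h2
      have h3 : (f ^ j) (H y - (j : K) • y) = 0 := by
        rcases smul_eq_zero.1 h2.symm with h4 | h4
        · exfalso
          have : ((j + 1 : ℕ) : K) ≠ 0 := Nat.cast_ne_zero.2 (Nat.succ_ne_zero j)
          exact this (by push_cast; exact h4)
        · exact h4
      have h4 := ih _ (Z.sub_mem (hZ y hy) (Z.smul_mem _ hy)) h3
      have h5 : y ∈ (⊥ : Submodule K W) := by
        refine mem_of_sub (H := H) (Y := ⊥) (w := (w : K)) (μ := (j : K)) ?_ ?_ ?_ k ?_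
        · intro z hz
          rw [Submodule.mem_bot] at hz ⊢
          rw [hz, map_zero]
        · intro h6
          have h7 : ((j : ℤ) : K) = ((w : ℤ) : K) := by push_cast; exact h6
          have := Int.cast_injective h7
          omega
        · rw [h4]; exact Submodule.zero_mem _
        · rw [hnil y hy.2]; exact Submodule.zero_mem _
      simpa using h5
  obtain ⟨m, hm⟩ := h.exists_low
  obtain ⟨j, hj⟩ : ∃ j : ℕ, w - 2 * (j : ℤ) < m := ⟨(w - m).toNat + 1, by omega⟩
  have h1 := h.f_pow_part hx j
  rw [hm _ hj, Submodule.mem_bot] at h1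
  exact key j x ⟨h0, hx⟩ h1

omit [CharZero K] in
/-- `f N ^ (j + 1) = N ^ (j + 1) f - (j + 1) N ^ j (H + j)`. -/
lemma fn_pow (h : Grad π S N f H) (j : ℕ) (v : W) :
    f ((N ^ (j + 1)) v) = (N ^ (j + 1)) (f v) - (j + 1 : K) • (N ^ j) (H v + (j : K) • v) := by
  have hH : ∀ (j : ℕ) (v : W), H ((N ^ j) v) = (N ^ j) (H v) + (2 * j : K) • (N ^ j) v := by
    intro j
    induction j with
    | zero => intro v; simp
    | succ j ih =>
      intro v
      rw [pow_succ, Module.End.mul_apply, Module.End.mul_apply, ih, h.hn_apply, map_add, map_smul]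
      push_cast
      module
  have hfn : ∀ v : W, f (N v) = N (f v) - H v := by
    intro v
    rw [h.nf_apply]; abel
  induction j with
  | zero => simp [hfn]
  | succ j ih =>
    rw [pow_succ' N (j + 1), Module.End.mul_apply, hfn, ih, map_sub, map_smul,
      Module.End.mul_apply, hH, pow_succ' N j]
    simp only [Module.End.mul_apply, map_add, map_smul]
    push_cast
    module

/-- `N` is surjective onto the parts of positive weight. -/
lemma surj_pos (h : Grad π S N f H) {w : ℤ} (hw : 0 < w) {x : W} (hx : x ∈ part π w) :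
    ∃ y ∈ part π (w - 2), N y = x := by
  obtain ⟨k, hk⟩ := h.nil
  let Y : Submodule K W := (part π (w - 2)).map N
  have hY : ∀ y ∈ Y, H y ∈ Y := by
    rintro _ ⟨y, hy, rfl⟩
    rw [h.hn_apply, ← map_smul, ← map_add]
    exact ⟨_, (part π (w - 2)).add_mem (h.h_part hy) ((part π (w - 2)).smul_mem _ hy), rfl⟩
  have hnil : ∀ y ∈ part π w, ((H - algebraMap K (End K W) (w : K)) ^ k) y = 0 := by
    intro y hy
    rw [h.mem_part] at hy
    rw [← hy, ← Module.End.mul_apply, hk, LinearMap.zero_apply]
  have key : ∀ j : ℕ, ∀ y ∈ part π w, (N ^ j) y = 0 → y ∈ Y := by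
    intro j
    induction j with
    | zero =>
      intro y _ hy
      have : y = 0 := by simpa using hy
      rw [this]; exact Y.zero_mem
    | succ j ih =>
      intro y hy h1
      have h2 := h.fn_pow j y
      rw [h1, map_zero] at h2
      have hfy := h.f_part hy
      have hNf : N (f y) ∈ Y := ⟨f y, hfy, rfl⟩
      have hNfp : N (f y) ∈ part π w := by
        have := h.n_part hfy
        rwa [sub_add_cancel] at this
      have h3 : (N ^ j) ((j + 1 : K) • (H y + (j : K) • y) - N (f y)) = 0 := by
        rw [map_sub, map_smul, ← Module.End.mul_apply (N ^ j) N, ← pow_succ]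
        exact (sub_eq_zero.2 (sub_eq_zero.1 h2.symm).symm)
      have h4 := ih _ ((part π w).sub_mem ((part π w).smul_mem _ ((part π w).add_mem (h.h_part hy)
        ((part π w).smul_mem _ hy))) hNfp) h3
      have h5 : (j + 1 : K) • (H y + (j : K) • y) ∈ Y := by
        have := Y.add_mem h4 hNf
        rwa [sub_add_cancel] at this
      have h6 : ((j : K) + 1) ≠ 0 := by
        have : ((j + 1 : ℕ) : K) ≠ 0 := Nat.cast_ne_zero.2 (Nat.succ_ne_zero j)
        exact_mod_cast this
      have h7 : H y + (j : K) • y ∈ Y := by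
        have := Y.smul_mem ((j : K) + 1)⁻¹ h5
        rwa [smul_smul, inv_mul_cancel₀ h6, one_smul] at this
      refine mem_of_sub (H := H) hY (w := (w : K)) (μ := -(j : K)) ?_ ?_ k ?_
      · intro h8
        have h9 : ((-(j : ℤ) : ℤ) : K) = ((w : ℤ) : K) := by push_cast; exact h8
        have := Int.cast_injective h9
        omega
      · rw [neg_smul, sub_neg_eq_add]; exact h7
      · rw [hnil y hy]; exact Y.zero_mem
  obtain ⟨m, hm⟩ := h.exists_high
  obtain ⟨j, hj⟩ : ∃ j : ℕ, m < w + 2 * (j : ℤ) := ⟨(m - w).toNat + 1, by omega⟩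
  have h1 := h.n_pow_part hx j
  rw [hm _ hj, Submodule.mem_bot] at h1
  exact key j x hx h1

omit [CharZero K] in
lemma sum_apply' (h : Grad π S N f H) (x : W) : ∑ w ∈ S, π w x = x := by
  have := congrArg (fun F : End K W => F x) h.sum
  simpa [LinearMap.sum_apply] using this

/-- The elements without components of weight less than `m`. -/
def ge (π : ℤ → End K W) (m : ℤ) : Submodule K W where
  carrier := {x | ∀ w < m, π w x = 0}
  zero_mem' := fun w _ => map_zero _
  add_mem' := fun {a b} ha hb w hw => by rw [map_add, ha w hw, hb w hw, add_zero]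
  smul_mem' := fun c a ha w hw => by rw [map_smul, ha w hw, smul_zero]

omit [CharZero K] in
lemma eq_zero_of (h : Grad π S N f H) {x : W} (hx : ∀ w, π w x = 0) : x = 0 := by
  rw [← h.sum_apply' x]
  exact Finset.sum_eq_zero fun w _ => hx w

variable {T : End K W}

omit [CharZero K] in
lemma T_apply (h : Grad π S N f H) (hT : ∀ w u, u ≤ w + 2 → π u * T * π w = π u * N * π w)
    {m : ℤ} {x : W} (hx : x ∈ ge π m) {u : ℤ} (hu : u ≤ m + 2) :
    π u (T x) = π u (N x) := by
  have h1 : ∀ F : End K W, π u (F x) = ∑ w ∈ S, (π u * F * π w) x := by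
    intro F
    have h2 : F x = ∑ w ∈ S, F (π w x) := by rw [← map_sum, h.sum_apply']
    rw [h2, map_sum]
    rfl
  rw [h1 T, h1 N]
  refine Finset.sum_congr rfl fun w _ => ?_
  rcases lt_or_ge w m with hw | hw
  · rw [Module.End.mul_apply, hx w hw, map_zero, Module.End.mul_apply, hx w hw, map_zero]
  · rw [hT w u (by omega)]

omit [CharZero K] in
lemma N_ge (h : Grad π S N f H) {m : ℤ} {x : W} (hx : x ∈ ge π m) : N x ∈ ge π (m + 2) := by
  intro w hw
  have h1 := h.nπ (w - 2)
  rw [sub_add_cancel] at h1
  rw [← Module.End.mul_apply, ← h1, Module.End.mul_apply, hx (w - 2) (by omega), map_zero]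

omit [CharZero K] in
lemma T_ge (h : Grad π S N f H) (hT : ∀ w u, u ≤ w + 2 → π u * T * π w = π u * N * π w)
    {m : ℤ} {x : W} (hx : x ∈ ge π m) : T x ∈ ge π (m + 2) := by
  intro w hw
  rw [h.T_apply hT hx (by omega), h.N_ge hx w hw]

omit [CharZero K] in
lemma part_le_ge (h : Grad π S N f H) {m w : ℤ} (hmw : m ≤ w) : part π w ≤ ge π m := by
  rintro _ ⟨y, rfl⟩ u hu
  rw [← Module.End.mul_apply, h.orth u w (by omega), LinearMap.zero_apply]

omit [CharZero K] in
lemma sub_ge (h : Grad π S N f H) {m : ℤ} {x y : W} (hx : x ∈ ge π m) (hy : y ∈ ge π m)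
    (hxy : π m x = π m y) : x - y ∈ ge π (m + 1) := by
  intro w hw
  rw [map_sub]
  rcases lt_or_ge w m with h1 | h1
  · rw [hx w h1, hy w h1, sub_zero]
  · obtain rfl : w = m := by omega
    rw [hxy, sub_self]

omit [CharZero K] in
lemma ge_high (h : Grad π S N f H) {M : ℤ} (hM : ∀ w, M < w → part π w = ⊥) {m : ℤ}
    (hm : M < m) : ge π m = ⊥ := by
  rw [eq_bot_iff]
  intro x hx
  rw [Submodule.mem_bot]
  refine h.eq_zero_of fun w => ?_
  rcases lt_or_ge w m with h1 | h1
  · exact hx w h1
  · have h2 : π w x ∈ part π w := ⟨x, rfl⟩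
    rw [hM w (by omega), Submodule.mem_bot] at h2
    exact h2

/-- **The kernel of `T` is small.** -/
theorem finrank_ker_le [FiniteDimensional K W] (h : Grad π S N f H)
    (hT : ∀ w u, u ≤ w + 2 → π u * T * π w = π u * N * π w) :
    finrank K (LinearMap.ker T) ≤ finrank K (part π 0) + finrank K (part π 1) := by
  obtain ⟨M, hM⟩ := h.exists_high
  obtain ⟨m₀, hm₀⟩ := h.exists_low
  -- the kernel has no components of negative weight
  have hker : ∀ x, T x = 0 → x ∈ ge π 0 := by
    intro x hx
    have key : ∀ j : ℕ, m₀ + j ≤ 0 → x ∈ ge π (m₀ + j) := by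
      intro j
      induction j with
      | zero =>
        intro _ w hw
        have h1 : π w x ∈ part π w := ⟨x, rfl⟩
        rw [hm₀ w (by simpa using hw), Submodule.mem_bot] at h1
        exact h1
      | succ j ih =>
        intro hj
        have h1 := ih (by push_cast at hj; omega)
        intro w hw
        rcases lt_or_ge w (m₀ + j) with h2 | h2
        · exact h1 w h2
        · obtain rfl : w = m₀ + j := by push_cast at hw; omega
          have h3 := h.T_apply hT h1 (u := m₀ + j + 2) le_rfl
          rw [hx, map_zero, ← Module.End.mul_apply, ← h.nπ, Module.End.mul_apply] at h3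
          exact h.inj_neg (by push_cast at hj; omega) ⟨x, rfl⟩ h3.symm
    rcases lt_or_ge m₀ 0 with h1 | h1
    · have := key (-m₀).toNat (by omega)
      rwa [show m₀ + ((-m₀).toNat : ℤ) = 0 by omega] at this
    · intro w hw
      have h2 : π w x ∈ part π w := ⟨x, rfl⟩
      rw [hm₀ w (by omega), Submodule.mem_bot] at h2
      exact h2
  -- `T` is surjective onto the elements with components of weight at least two
  have hsurj : ∀ (j : ℕ) (m : ℤ), 2 ≤ m → M + 1 ≤ m + j → ∀ y ∈ ge π m, ∃ x ∈ ge π (m - 2), T x = y := by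
    intro j
    induction j with
    | zero =>
      intro m _ hm y hy
      rw [h.ge_high hM (by push_cast at hm; omega), Submodule.mem_bot] at hy
      exact ⟨0, Submodule.zero_mem _, by rw [hy, map_zero]⟩
    | succ j ih =>
      intro m hm2 hm y hy
      obtain ⟨x₀, hx₀, hx₀'⟩ := h.surj_pos (w := m) (by omega) (x := π m y) ⟨y, rfl⟩
      have hx₀g : x₀ ∈ ge π (m - 2) := h.part_le_ge le_rfl hx₀
      have hTx : T x₀ ∈ ge π m := by
        have := h.T_ge hT hx₀g
        rwa [sub_add_cancel] at this
      have h1 : π m y = π m (T x₀) := by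
        rw [h.T_apply hT hx₀g (by omega), hx₀', ← Module.End.mul_apply, h.idem]
      obtain ⟨x₁, hx₁, hx₁'⟩ := ih (m + 1) (by omega) (by push_cast at hm; omega) _
        (h.sub_ge hy hTx h1)
      refine ⟨x₀ + x₁, (ge π (m - 2)).add_mem hx₀g ?_, ?_⟩
      · intro w hw
        exact hx₁ w (by omega)
      · rw [map_add, hx₁']; abel
  -- dimensions
  let A : ge π 0 →ₗ[K] ge π 2 := T.restrict (fun x hx => by
    have := h.T_ge hT hx
    rwa [zero_add] at this)
  have hA : Function.Surjective A := by
    rintro ⟨y, hy⟩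
    obtain ⟨x, hx, hxy⟩ := hsurj (M.toNat) 2 le_rfl (by omega) y hy
    exact ⟨⟨x, by simpa using hx⟩, Subtype.ext hxy⟩
  have h1 := LinearMap.finrank_range_add_finrank_ker A
  rw [LinearMap.range_eq_top.2 hA, finrank_top] at h1
  have h2 : finrank K (LinearMap.ker T) ≤ finrank K (LinearMap.ker A) := by
    let i : LinearMap.ker T →ₗ[K] LinearMap.ker A :=
      { toFun := fun x => ⟨⟨x.1, hker x.1 x.2⟩, Subtype.ext x.2⟩
        map_add' := fun _ _ => rfl
        map_smul' := fun _ _ => rfl }
    refine LinearMap.finrank_le_finrank_of_injective (f := i) ?_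
    intro x y hxy
    apply Subtype.ext
    exact congrArg (fun z : LinearMap.ker A => ((z : ge π 0) : W)) hxy
  let B : ge π 0 →ₗ[K] part π 0 × part π 1 :=
    { toFun := fun x => (⟨π 0 x.1, x.1, rfl⟩, ⟨π 1 x.1, x.1, rfl⟩)
      map_add' := fun x y => by
        refine Prod.ext (Subtype.ext ?_) (Subtype.ext ?_)
        · exact map_add _ _ _
        · exact map_add _ _ _
      map_smul' := fun c x => by
        refine Prod.ext (Subtype.ext ?_) (Subtype.ext ?_)
        · exact map_smul _ _ _
        · exact map_smul _ _ _ }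
  have h3 := LinearMap.finrank_range_add_finrank_ker B
  have h4 : finrank K (LinearMap.range B) ≤ finrank K (part π 0) + finrank K (part π 1) := by
    refine (Submodule.finrank_le _).trans (le_of_eq ?_)
    exact Module.finrank_prod
  have h5 : finrank K (LinearMap.ker B) ≤ finrank K (ge π 2) := by
    let i : LinearMap.ker B →ₗ[K] ge π 2 :=
      { toFun := fun x => ⟨x.1.1, fun w hw => by
          have hx : B x.1 = 0 := x.2
          have hx0 : π 0 x.1.1 = 0 := congrArg (fun z : part π 0 × part π 1 => (z.1 : W)) hx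
          have hx1 : π 1 x.1.1 = 0 := congrArg (fun z : part π 0 × part π 1 => (z.2 : W)) hx
          rcases lt_or_ge w 0 with h6 | h6
          · exact x.1.2 w h6
          · rcases (show w = 0 ∨ w = 1 by omega) with rfl | rfl
            · exact hx0
            · exact hx1⟩
        map_add' := fun _ _ => rfl
        map_smul' := fun _ _ => rfl }
    refine LinearMap.finrank_le_finrank_of_injective (f := i) ?_
    intro x y hxy
    apply Subtype.ext
    apply Subtype.ext
    exact congrArg (fun z : ge π 2 => (z : W)) hxy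
  omega

end Grad

end Pool.Agent.H17Ss
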